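import Pool.Agent.Lib.MP_4bcb19_an.Local

/-! # The branch of `q / √(1 + q ^ 2)` and the uniform local lemma -/

open Polynomial Filter Topology

namespace MP_4bcb19_an

noncomputable section

theorem Q_ofReal (q : ℝ[X]) (t : ℝ) : Q q t = ((q.eval t : ℝ) : ℂ) := by
  unfold Q qc
  rw [Polynomial.eval_map_algebraMap]
  exact Polynomial.aeval_algebraMap_apply_eq_algebraMap_eval t q

theorem Q1_ofReal (q : ℝ[X]) (t : ℝ) : Q1 q t = (((derivative q).eval t : ℝ) : ℂ) := by
  unfold Q1 qc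
  rw [Polynomial.derivative_map]
  exact Q_ofReal (derivative q) t

theorem PP_ofReal (q : ℝ[X]) (t : ℝ) : PP q t = ((1 + q.eval t ^ 2 : ℝ) : ℂ) := by
  unfold PP
  rw [Q_ofReal]; push_cast; ring

theorem Q_differentiable (q : ℝ[X]) : Differentiable ℂ (Q q) := by
  unfold Q; exact Polynomial.differentiable _

theorem Q1_differentiable (q : ℝ[X]) : Differentiable ℂ (Q1 q) := by
  unfold Q1; exact Polynomial.differentiable _

theorem Q_analyticAt (q : ℝ[X]) (x : ℂ) : AnalyticAt ℂ (Q q) x :=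
  (Q_differentiable q).analyticAt x

theorem Q1_analyticAt (q : ℝ[X]) (x : ℂ) : AnalyticAt ℂ (Q1 q) x :=
  (Q1_differentiable q).analyticAt x

theorem PP_analyticAt (q : ℝ[X]) (x : ℂ) : AnalyticAt ℂ (PP q) x := by
  have := Q_analyticAt q x
  unfold PP; fun_prop

theorem Q_hasDerivAt (q : ℝ[X]) (x : ℂ) : HasDerivAt (Q q) (Q1 q x) x := by
  unfold Q Q1; exact Polynomial.hasDerivAt _ _

theorem PP_hasDerivAt (q : ℝ[X]) (x : ℂ) : HasDerivAt (PP q) (2 * Q q x * Q1 q x) x := by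
  have h := ((Q_hasDerivAt q x).pow 2).const_add 1
  have e : ((2 : ℕ) : ℂ) * Q q x ^ (2 - 1) * Q1 q x = 2 * Q q x * Q1 q x := by norm_num
  rw [e] at h
  exact h

theorem natDegree_qc (q : ℝ[X]) : (qc q).natDegree = q.natDegree :=
  Polynomial.natDegree_map _

theorem natDegree_one_add_sq (q : ℝ[X]) (hq : 1 ≤ q.natDegree) :
    (1 + qc q ^ 2).natDegree = 2 * q.natDegree := by
  have h1 : (qc q ^ 2).natDegree = 2 * q.natDegree := by
    rw [natDegree_pow, natDegree_qc]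
  rw [natDegree_add_eq_right_of_natDegree_lt, h1]
  rw [h1]; simp; omega

theorem natDegree_one_add_sq_pow (q : ℝ[X]) (hq : 1 ≤ q.natDegree) :
    ((1 + qc q ^ 2) ^ 3).natDegree = 6 * q.natDegree := by
  rw [natDegree_pow, natDegree_one_add_sq q hq]; ring

theorem natDegree_sq_deriv_lt (q : ℝ[X]) (hq : 1 ≤ q.natDegree) :
    (derivative (qc q) ^ 2).natDegree < 6 * q.natDegree := by
  rw [natDegree_pow]
  have := natDegree_derivative_le (qc q)
  rw [natDegree_qc] at this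
  omega

theorem derivative_qc_ne_zero (q : ℝ[X]) (hq : 1 ≤ q.natDegree) : derivative (qc q) ≠ 0 := by
  intro h
  have h1 := Polynomial.derivative_eq_zero.1 h
  rw [natDegree_qc] at h1
  omega

theorem GC_ne_zero (q : ℝ[X]) (hq : 1 ≤ q.natDegree) (c : ℂ) :
    derivative (qc q) ^ 2 - C c * (1 + qc q ^ 2) ^ 3 ≠ 0 := by
  intro h
  by_cases hc : c = 0
  · rw [hc] at h
    have h1 : derivative (qc q) ^ 2 = 0 := by simpa only [map_zero, zero_mul, sub_zero] using h
    exact derivative_qc_ne_zero q hq (pow_eq_zero_iff (two_ne_zero) |>.1 h1)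
  · have h1 : derivative (qc q) ^ 2 = C c * (1 + qc q ^ 2) ^ 3 := sub_eq_zero.1 h
    have h2 := natDegree_sq_deriv_lt q hq
    rw [h1, natDegree_C_mul hc, natDegree_one_add_sq_pow q hq] at h2
    omega

/-- Local square root of `1 + q ^ 2`. -/
theorem branch (q : ℝ[X]) (y : ℂ) (hP : PP q y ≠ 0) :
    ∃ w : ℂ → ℂ, AnalyticAt ℂ w y ∧ (∀ᶠ x in 𝓝 y, w x ^ 2 = PP q x) ∧ w y ≠ 0 ∧
      (y.im = 0 → ∀ᶠ t : ℝ in 𝓝 y.re, (w t).im = 0) := by
  set w₀ : ℂ := PP q y ^ ((1 : ℂ) / 2) with hw₀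
  have hw₀2 : w₀ ^ 2 = PP q y := by
    rw [hw₀, ← Complex.cpow_nat_mul]
    norm_num
  have hw₀0 : w₀ ≠ 0 := by
    intro h
    rw [h] at hw₀2
    exact hP (by rw [← hw₀2]; simp)
  have hslit : PP q y / PP q y ∈ Complex.slitPlane := by
    rw [div_self hP]; exact Complex.one_mem_slitPlane
  refine ⟨fun x => w₀ * (PP q x / PP q y) ^ ((1 : ℂ) / 2), ?_, ?_, ?_, ?_⟩
  · have h1 : AnalyticAt ℂ (fun x => PP q x / PP q y) y := by
      have := PP_analyticAt q y
      exact this.div analyticAt_const hP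
    have h2 : AnalyticAt ℂ (fun x => (PP q x / PP q y) ^ ((1 : ℂ) / 2)) y :=
      h1.cpow analyticAt_const hslit
    exact analyticAt_const.mul h2
  · filter_upwards with x
    rw [mul_pow, hw₀2, ← Complex.cpow_nat_mul]
    norm_num
    field_simp
  · simp [div_self hP, hw₀0]
  · intro hy
    have hyr : ((y.re : ℝ) : ℂ) = y := by apply Complex.ext <;> simp [hy]
    filter_upwards with t
    have key : ∀ r : ℝ, 0 ≤ r → (((r : ℝ) : ℂ) ^ ((1 : ℂ) / 2)).im = 0 := by
      intro r hr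
      have : ((1 : ℂ) / 2) = (((1 : ℝ) / 2 : ℝ) : ℂ) := by push_cast; rfl
      rw [this, ← Complex.ofReal_cpow hr]
      simp
    have h1 : w₀.im = 0 := by
      rw [hw₀, ← hyr, PP_ofReal]
      exact key _ (by positivity)
    have h2 : ((PP q t / PP q y) ^ ((1 : ℂ) / 2)).im = 0 := by
      rw [← hyr, PP_ofReal, PP_ofReal, ← Complex.ofReal_div]
      exact key _ (by positivity)
    rw [Complex.mul_im, h1, h2]; ring

/-- The uniform local lemma. -/
theorem lemU (q : ℝ[X]) (hq : 1 ≤ q.natDegree) (y : ℂ) (hP : PP q y ≠ 0) (α₀ : ℝ) (hα₀ : 0 ≤ α₀)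
    (hQ : Q1 q y ^ 2 = (α₀ : ℂ) ^ 2 * PP q y ^ 3)
    (hL : (0 < α₀ ∧ (FF q y).im = 0) ∨ (α₀ = 0 ∧ ∃ r : ℝ, 0 ≤ r ∧ Q q y ^ 2 = r * PP q y)) :
    ∀ᶠ x in 𝓝 y, ∀ α : ℝ, 0 < α → Q1 q x ^ 2 = (α : ℂ) ^ 2 * PP q x ^ 3 → x.im ≠ 0 →
      ∃ c : ℝ, 0 < c ∧ x.im * (FF q x).im = (1 - α₀ / α) * c := by
  obtain ⟨w, hwa, hw2, hw0, hwr⟩ := branch q y hP
  have hw0' : ∀ᶠ x in 𝓝 y, w x ≠ 0 := hwa.continuousAt.eventually_ne hw0
  set S : ℂ → ℂ := fun x => Q q x / w x with hS
  have hSa : AnalyticAt ℂ S y := (Q_analyticAt q y).div hwa hw0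
  -- derivative of `w`
  have hwd : ∀ᶠ x in 𝓝 y, w x * deriv w x = Q q x * Q1 q x := by
    filter_upwards [hw2.eventually_nhds, hwa.eventually_analyticAt] with x h1 h2
    have h3 : deriv (fun z => w z ^ 2) x = deriv (PP q) x := Filter.EventuallyEq.deriv_eq h1
    rw [(PP_hasDerivAt q x).deriv] at h3
    have h4 := (h2.differentiableAt.hasDerivAt.pow 2).deriv
    have h5 : deriv (fun z => w z ^ 2) x = ((2 : ℕ) : ℂ) * w x ^ (2 - 1) * deriv w x := h4
    rw [h5] at h3
    norm_num at h3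
    have h6 : (2 : ℂ) * (w x * deriv w x) = 2 * (Q q x * Q1 q x) := by linear_combination h3
    exact mul_left_cancel₀ two_ne_zero h6
  have hSd : ∀ᶠ x in 𝓝 y, deriv S x = Q1 q x / w x ^ 3 := by
    filter_upwards [hwd, hw2, hw0', hwa.eventually_analyticAt] with x h1 h2 h3 h4
    have h5 := ((Q_hasDerivAt q x).div h4.differentiableAt.hasDerivAt h3).deriv
    have h6 : deriv S x = (Q1 q x * w x - Q q x * deriv w x) / w x ^ 2 := h5
    rw [h6]
    have h7 : deriv w x = Q q x * Q1 q x / w x := by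
      rw [← h1]; field_simp
    rw [h7]
    have h8 : w x ^ 2 = 1 + Q q x ^ 2 := h2
    field_simp
    linear_combination Q1 q x * h8
  have hSne : ¬ ∀ᶠ x in 𝓝 y, deriv S x = deriv S y := by
    intro h
    apply GC_ne_zero q hq (deriv S y ^ 2)
    apply Polynomial.eq_zero_of_infinite_isRoot
    have h1 : ∀ᶠ x in 𝓝 y, Q1 q x ^ 2 = deriv S y ^ 2 * PP q x ^ 3 := by
      filter_upwards [h, hSd, hw2, hw0'] with x h1 h2 h3 h4
      rw [← h1, h2, ← h3]
      field_simp
    have h2 : {x : ℂ | Q1 q x ^ 2 = deriv S y ^ 2 * PP q x ^ 3}.Infinite :=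
      infinite_of_mem_nhds y h1
    refine h2.mono ?_
    intro x hx
    have hx' : Q1 q x ^ 2 = deriv S y ^ 2 * PP q x ^ 3 := hx
    show (derivative (qc q) ^ 2 - C (deriv S y ^ 2) * (1 + qc q ^ 2) ^ 3).IsRoot x
    simp only [IsRoot.def, eval_sub, eval_mul, eval_pow, eval_C, eval_add, eval_one]
    exact sub_eq_zero.2 hx'
  have hSr : y.im = 0 → ∀ᶠ t : ℝ in 𝓝 y.re, (S t).im = 0 ∧ (deriv S t).im = 0 := by
    intro hy
    have hyr : ((y.re : ℝ) : ℂ) = y := by apply Complex.ext <;> simp [hy]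
    have hcont : Tendsto (fun t : ℝ => (t : ℂ)) (𝓝 y.re) (𝓝 y) := by
      have := Complex.continuous_ofReal.tendsto y.re
      rwa [hyr] at this
    filter_upwards [hwr hy, hcont.eventually hSd] with t h1 h2
    have h3 : w t = (((w t).re : ℝ) : ℂ) := by apply Complex.ext <;> simp [h1]
    constructor
    · simp only [hS]
      rw [h3, Q_ofReal, ← Complex.ofReal_div]; simp
    · rw [h2, h3, Q1_ofReal, ← Complex.ofReal_pow, ← Complex.ofReal_div, Complex.ofReal_im]
  obtain ⟨g, hg1, hg2⟩ := legendre hSa hSne hSr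
  -- the value at `y`
  have hwy : w y ^ 2 = PP q y := hw2.self_of_nhds
  have hSdy : deriv S y = Q1 q y / w y ^ 3 := hSd.self_of_nhds
  have hκ2 : deriv S y ^ 2 = (α₀ : ℂ) ^ 2 := by
    rw [hSdy, div_pow, hQ, ← hwy]; field_simp
  obtain ⟨k₀, hk₀, hk₀a⟩ : ∃ k₀ : ℝ, deriv S y = k₀ ∧ |k₀| = α₀ := by
    rcases sq_eq_sq_iff_eq_or_eq_neg.1 hκ2 with h | h
    · exact ⟨α₀, h, abs_of_nonneg hα₀⟩
    · exact ⟨-α₀, by rw [h]; push_cast; rfl, by rw [abs_neg, abs_of_nonneg hα₀]⟩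
  have hLy : (deriv S y * y - S y).im = 0 := by
    rcases hL with ⟨h1, h2⟩ | ⟨h1, r, hr, h2⟩
    · have hQ1 : Q1 q y ≠ 0 := by
        intro h
        rw [h] at hQ
        have : (α₀ : ℂ) ^ 2 * PP q y ^ 3 ≠ 0 := by
          have : (α₀ : ℂ) ≠ 0 := by exact_mod_cast h1.ne'
          positivity
        exact this (by rw [← hQ]; simp)
      have h3 : deriv S y * y - S y = k₀ * FF q y := by
        rw [← hk₀, hSdy]
        simp only [FF, hS]
        rw [← hwy]
        field_simp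
      rw [h3, Complex.im_ofReal_mul, h2, mul_zero]
    · have h3 : k₀ = 0 := by rw [h1] at hk₀a; exact abs_eq_zero.1 hk₀a
      have h4 : S y ^ 2 = (r : ℂ) := by
        simp only [hS]
        rw [div_pow, h2, hwy]; field_simp
      have h5 : (S y).im = 0 := by
        have h6 := congrArg Complex.im h4
        have h7 := congrArg Complex.re h4
        rw [pow_two, Complex.mul_im, Complex.ofReal_im] at h6
        rw [pow_two, Complex.mul_re, Complex.ofReal_re] at h7
        have h8 : (S y).re * (S y).im = 0 := by linarith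
        rcases mul_eq_zero.1 h8 with h9 | h9
        · rw [h9] at h7
          nlinarith [mul_self_nonneg (S y).im, mul_self_eq_zero.1 (by nlinarith [mul_self_nonneg (S y).im] : (S y).im * (S y).im = 0)]
        · exact h9
      rw [hk₀, h3]
      simp [h5]
  have hk₀0 : α₀ = 0 → k₀ = 0 := fun h => by rw [h] at hk₀a; exact abs_eq_zero.1 hk₀a
  -- sign of the real number `deriv S x` near `y`
  have hsgn : ∀ᶠ x in 𝓝 y, 0 < α₀ → 0 < (deriv S x).re * k₀ := by
    by_cases h : 0 < α₀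
    · have h1 : ContinuousAt (fun x => (deriv S x).re * k₀) y :=
        (Complex.continuous_re.continuousAt.comp hSa.deriv.continuousAt).mul continuousAt_const
      have h2 : 0 < (deriv S y).re * k₀ := by
        rw [hk₀, Complex.ofReal_re]
        exact mul_self_pos.2 (by intro h3; rw [h3] at hk₀a; simp at hk₀a; linarith)
      have h3 : ∀ᶠ x in 𝓝 y, 0 < (deriv S x).re * k₀ := h1.eventually (lt_mem_nhds h2)
      exact h3.mono fun x hx _ => hx
    · exact Eventually.of_forall fun x hx => absurd hx h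
  filter_upwards [hg1, hg2, hSd, hw2, hw0', hsgn] with x hx1 hx2 hx3 hx4 hx5 hx6 α hα hx hxim
  refine ⟨x.im * (g x).im, hx1 hxim, ?_⟩
  have hκ : deriv S x ^ 2 = (α : ℂ) ^ 2 := by
    rw [hx3, div_pow, hx, ← hx4]; field_simp
  obtain ⟨k, hk, hka⟩ : ∃ k : ℝ, deriv S x = k ∧ |k| = α := by
    rcases sq_eq_sq_iff_eq_or_eq_neg.1 hκ with h | h
    · exact ⟨α, h, abs_of_pos hα⟩
    · exact ⟨-α, by rw [h]; push_cast; rfl, by rw [abs_neg, abs_of_pos hα]⟩
  have hk0 : k ≠ 0 := by intro h; rw [h] at hka; simp at hka; linarith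
  have hkC : (k : ℂ) ≠ 0 := by exact_mod_cast hk0
  have hQ1x : Q1 q x ≠ 0 := by
    intro h
    rw [hx3, h] at hk
    exact hkC (by rw [← hk]; simp)
  have h3 : deriv S x * x - S x = k * FF q x := by
    rw [← hk, hx3]
    simp only [FF, hS]
    rw [← hx4]
    field_simp
  have h4 : k * (FF q x).im = (k - k₀) * (g x).im := by
    have h5 := congrArg Complex.im hx2
    rw [h3, Complex.im_ofReal_mul, Complex.add_im, hLy, hk, hk₀, ← Complex.ofReal_sub,
      Complex.im_ofReal_mul] at h5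
    linarith
  have h5 : α₀ / α = k₀ / k := by
    rcases hα₀.eq_or_lt with h | h
    · rw [hk₀0 h.symm, ← h]; simp
    · have h6 := hx6 h
      rw [hk, Complex.ofReal_re] at h6
      rw [← hk₀a, ← hka, ← abs_div, abs_of_nonneg]
      rcases lt_or_gt_of_ne hk0 with h7 | h7
      · exact (div_pos_of_neg_of_neg (neg_of_mul_pos_right h6 h7.le) h7).le
      · exact (div_pos ((pos_iff_pos_of_mul_pos h6).1 h7) h7).le
  have h6 : (FF q x).im = (1 - k₀ / k) * (g x).im := by
    field_simp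
    linarith
  rw [h5, h6]; ring

end

end MP_4bcb19_an
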