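import Pool.Agent.Lib.MP_4bcb19_an.Defs

open Polynomial Filter Topology

namespace MP_4bcb19_an

theorem rcont_tuple (p : ℂ[X]) (N : ℕ) (hN : p.natDegree = N) :
    ∃ z : Fin N → ℂ, p.roots = (Finset.univ : Finset (Fin N)).val.map z := by
  have hc : p.roots.card = N := by
    rw [IsAlgClosed.card_roots_eq_natDegree, hN]
  have hl : p.roots.toList.length = N := by simpa using hc
  subst hl
  refine ⟨fun i => p.roots.toList.get i, ?_⟩
  rw [Fin.univ_val_map]
  rw [List.ofFn_get]
  simp

theorem rcont_eval (p : ℂ[X]) (N : ℕ) (z : Fin N → ℂ)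
    (hz : p.roots = (Finset.univ : Finset (Fin N)).val.map z) (x : ℂ) :
    p.eval x = p.leadingCoeff * ∏ i, (x - z i) := by
  rw [(IsAlgClosed.splits p).eval_eq_prod_roots x, hz, Multiset.map_map]
  rfl

theorem rcont_general (N : ℕ) (p : ℕ → ℂ[X]) (p0 : ℂ[X]) (hN : ∀ n, (p n).natDegree = N)
    (hN0 : p0.natDegree = N) (hp0 : p0 ≠ 0)
    (hlim : ∀ i, Tendsto (fun n => (p n).coeff i) atTop (𝓝 (p0.coeff i)))
    (ε : ℝ) (hε : 0 < ε) :
    ∃ᶠ n in atTop, ∃ z w : Fin N → ℂ,
      (p n).roots = (Finset.univ : Finset (Fin N)).val.map z ∧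
      p0.roots = (Finset.univ : Finset (Fin N)).val.map w ∧
      ∀ i, ‖z i - w i‖ < ε := by
  choose z hz using fun n => rcont_tuple (p n) N (hN n)
  have hlc0 : p0.coeff N ≠ 0 := by
    rw [← hN0]; simpa using hp0
  -- boundedness
  obtain ⟨B, hB⟩ : ∃ B : ℝ, ∀ᶠ n in atTop, ∀ i, ‖z n i‖ ≤ B := by
    have h1 : ∀ i, ∃ C : ℝ, ∀ n, ‖(p n).coeff i‖ ≤ C := by
      intro i
      obtain ⟨C, hC⟩ := (hlim i).norm.bddAbove_range
      exact ⟨C, fun n => hC ⟨n, rfl⟩⟩
    choose C hC using h1
    have hC0 : ∀ i, 0 ≤ C i := fun i => (norm_nonneg _).trans (hC i 0)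
    have hlcpos : 0 < ‖p0.coeff N‖ := by simpa using hlc0
    have h2 : ∀ᶠ n in atTop, ‖p0.coeff N‖ / 2 < ‖(p n).coeff N‖ :=
      (hlim N).norm.eventually (lt_mem_nhds (by linarith))
    refine ⟨(∑ i ∈ Finset.range N, C i) / (‖p0.coeff N‖ / 2) + 1, ?_⟩
    filter_upwards [h2] with n hn i
    have hpn : p n ≠ 0 := by
      intro h
      rw [h] at hn
      simp at hn
      linarith
    have hroot : (p n).IsRoot (z n i) := by
      have : z n i ∈ (p n).roots := by
        rw [hz n]
        exact Multiset.mem_map.2 ⟨i, Finset.mem_univ i, rfl⟩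
      exact isRoot_of_mem_roots this
    have h3 := (hroot.norm_lt_cauchyBound hpn).le
    have h4 : (‖z n i‖₊ : ℝ) ≤ (cauchyBound (p n) : ℝ) := by exact_mod_cast h3
    rw [coe_nnnorm] at h4
    refine h4.trans ?_
    unfold cauchyBound
    have hlcn : (p n).leadingCoeff = (p n).coeff N := by
      rw [leadingCoeff, hN]
    rw [hlcn, hN n]
    push_cast
    gcongr
    · exact Finset.sum_nonneg fun i _ => hC0 i
    · have h5 : ∀ j ∈ Finset.range N, ‖(p n).coeff j‖₊ ≤ ∑ i ∈ Finset.range N, (C i).toNNReal := by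
        intro j hj
        have : ‖(p n).coeff j‖₊ ≤ (C j).toNNReal := by
          rw [← NNReal.coe_le_coe, Real.coe_toNNReal _ (hC0 j)]
          exact hC j n
        exact this.trans (Finset.single_le_sum (f := fun i => (C i).toNNReal)
          (fun _ _ => zero_le) hj)
      have h6 : (Finset.range N).sup (fun j => ‖(p n).coeff j‖₊) ≤
          ∑ i ∈ Finset.range N, (C i).toNNReal := Finset.sup_le h5
      have h7 : (((Finset.range N).sup (fun j => ‖(p n).coeff j‖₊) : NNReal) : ℝ) ≤
          ((∑ i ∈ Finset.range N, (C i).toNNReal : NNReal) : ℝ) := by exact_mod_cast h6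
      refine h7.trans (le_of_eq ?_)
      push_cast
      exact Finset.sum_congr rfl fun i _ => max_eq_left (hC0 i)
  -- compactness
  have hbd : ∀ᶠ n in atTop, z n ∈ Metric.closedBall (0 : Fin N → ℂ) (max B 0) := by
    filter_upwards [hB] with n hn
    rw [mem_closedBall_zero_iff, pi_norm_le_iff_of_nonneg (le_max_right _ _)]
    exact fun i => (hn i).trans (le_max_left _ _)
  obtain ⟨w, -, φ, hφ, hw⟩ := (isCompact_closedBall (0 : Fin N → ℂ) (max B 0)).tendsto_subseq'
    hbd.frequently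
  have hwi : ∀ i, Tendsto (fun n => z (φ n) i) atTop (𝓝 (w i)) := fun i =>
    (tendsto_pi_nhds.1 hw) i
  have hform : p0 = C (p0.coeff N) * ∏ i, (X - C (w i)) := by
    refine Polynomial.funext fun x => ?_
    rw [eval_mul, eval_C, eval_prod]
    simp only [eval_sub, eval_X, eval_C]
    have hA : Tendsto (fun n => (p (φ n)).eval x) atTop (𝓝 (p0.eval x)) := by
      have e1 : ∀ n, (p (φ n)).eval x = ∑ i ∈ Finset.range (N + 1), (p (φ n)).coeff i * x ^ i := by
        intro n
        rw [eval_eq_sum_range, hN]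
      have e2 : p0.eval x = ∑ i ∈ Finset.range (N + 1), p0.coeff i * x ^ i := by
        rw [eval_eq_sum_range, hN0]
      simp only [e1, e2]
      exact tendsto_finsetSum _ fun i _ => (((hlim i).comp hφ.tendsto_atTop).mul_const _)
    have hA' : Tendsto (fun n => (p (φ n)).eval x) atTop (𝓝 (p0.coeff N * ∏ i, (x - w i))) := by
      have e1 : ∀ n, (p (φ n)).eval x = (p (φ n)).coeff N * ∏ i, (x - z (φ n) i) := by
        intro n
        rw [rcont_eval _ N (z (φ n)) (hz (φ n)), leadingCoeff, hN]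
      simp only [e1]
      exact ((hlim N).comp hφ.tendsto_atTop).mul
        (tendsto_finsetProd _ fun i _ => tendsto_const_nhds.sub (hwi i))
    exact tendsto_nhds_unique hA hA'
  have hroots : p0.roots = (Finset.univ : Finset (Fin N)).val.map w := by
    have : (∏ i : Fin N, (X - C (w i)) : ℂ[X]) =
        (((Finset.univ : Finset (Fin N)).val.map w).map (fun a => X - C a)).prod := by
      rw [Multiset.map_map]; rfl
    rw [hform, roots_C_mul _ hlc0, this, roots_multiset_prod_X_sub_C]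
  have hev : ∀ᶠ n in atTop, ∀ i, ‖z (φ n) i - w i‖ < ε := by
    rw [eventually_all]
    intro i
    have := (tendsto_iff_norm_sub_tendsto_zero.1 (hwi i))
    exact this.eventually (gt_mem_nhds hε)
  have hfin : ∃ᶠ n in atTop, ∀ i, ‖z (φ n) i - w i‖ < ε := hev.frequently
  have hfin' : ∃ᶠ n in atTop, ∀ i, ‖z n i - w i‖ < ε := hφ.tendsto_atTop.frequently hfin
  exact hfin'.mono fun n hn => ⟨z n, w, hz n, hroots, hn⟩

theorem rcont_natDegree (q : ℝ[X]) (hq : 1 ≤ q.natDegree) (α : ℝ) (hα : 0 < α) :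
    (G q α).natDegree = 6 * q.natDegree := by
  have hqc : (qc q).natDegree = q.natDegree := natDegree_map _
  have h1 : (1 + qc q ^ 2).natDegree = 2 * q.natDegree := by
    rw [natDegree_add_eq_right_of_natDegree_lt]
    · rw [natDegree_pow, hqc]
    · rw [natDegree_one, natDegree_pow, hqc]; omega
  have h2 : ((C ((α : ℂ) ^ 2)) * (1 + qc q ^ 2) ^ 3).natDegree = 6 * q.natDegree := by
    rw [natDegree_C_mul (by
      have : (α : ℂ) ≠ 0 := by exact_mod_cast hα.ne'
      positivity), natDegree_pow, h1]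
    ring
  unfold G
  rw [sub_eq_add_neg, natDegree_add_eq_right_of_natDegree_lt]
  · rw [natDegree_neg, h2]
  · rw [natDegree_neg, h2, natDegree_pow]
    have := natDegree_derivative_le (qc q)
    rw [hqc] at this
    omega

theorem rcont_coeff (q : ℝ[X]) (i : ℕ) : Continuous fun α : ℝ => (G q α).coeff i := by
  unfold G
  simp only [coeff_sub, coeff_C_mul]
  fun_prop

/-- Job D (RootsCont). Continuity of the roots of `G q α` in `α`, with multiplicities. -/
theorem roots_cont (q : ℝ[X]) (hq : 1 ≤ q.natDegree) (α₀ : ℝ) (h0 : 0 < α₀) (ε : ℝ) (hε : 0 < ε) :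
    ∀ᶠ α in 𝓝 α₀, ∃ z w : Fin (6 * q.natDegree) → ℂ,
      (G q α).roots = (Finset.univ : Finset (Fin (6 * q.natDegree))).val.map z ∧
      (G q α₀).roots = (Finset.univ : Finset (Fin (6 * q.natDegree))).val.map w ∧
      ∀ i, ‖z i - w i‖ < ε := by
  by_contra hcon
  have hcon' := Filter.not_eventually.1 hcon
  have hpos : ∀ᶠ α in 𝓝 α₀, 0 < α := lt_mem_nhds h0
  obtain ⟨a, ha, hbad⟩ := Filter.exists_seq_forall_of_frequently (hcon'.and_eventually hpos)
  have := rcont_general (6 * q.natDegree) (fun n => G q (a n)) (G q α₀)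
    (fun n => rcont_natDegree q hq _ (hbad n).2) (rcont_natDegree q hq _ h0) (by
      intro h
      have := rcont_natDegree q hq _ h0
      rw [h] at this
      simp at this
      omega)
    (fun i => ((rcont_coeff q i).tendsto α₀).comp ha) ε hε
  obtain ⟨n, hn⟩ := this.exists
  exact (hbad n).1 hn

end MP_4bcb19_an
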