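import Mathlib

open Filter Topology

namespace MP_4bcb19_an

theorem sides_lt_left {h h' : ℝ → ℝ} (hd : ∀ x, HasDerivAt h (h' x) x) {x y : ℝ}
    (hW : ∀ t ∈ Set.Ioo x y, h' t ≠ 0) (hxy : h x < h y) {t : ℝ} (ht : t ∈ Set.Ioo x y) :
    h t < h y := by
  by_contra hcon
  push Not at hcon
  have hc : ContinuousOn h (Set.Icc x y) := fun z _ => (hd z).continuousAt.continuousWithinAt
  obtain ⟨m, hm, hmax⟩ := isCompact_Icc.exists_isMaxOn (Set.nonempty_Icc.2 (ht.1.trans ht.2).le) hc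
  have htI : t ∈ Set.Icc x y := ⟨ht.1.le, ht.2.le⟩
  have hint : ∃ m' ∈ Set.Ioo x y, IsMaxOn h (Set.Icc x y) m' := by
    by_cases hmy : m = y
    · refine ⟨t, ht, fun z hz => ?_⟩
      have h1 : h z ≤ h m := hmax hz
      show h z ≤ h t
      rw [hmy] at h1
      linarith
    · refine ⟨m, ⟨lt_of_le_of_ne hm.1 ?_, lt_of_le_of_ne hm.2 hmy⟩, hmax⟩
      rintro rfl
      have h1 : h t ≤ h x := hmax htI
      linarith
  obtain ⟨m', hm', hmax'⟩ := hint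
  have hloc : IsLocalMax h m' := hmax'.isLocalMax (Icc_mem_nhds hm'.1 hm'.2)
  exact hW m' hm' (hloc.hasDerivAt_eq_zero (hd m'))

theorem sides_lt_right {h h' : ℝ → ℝ} (hd : ∀ x, HasDerivAt h (h' x) x) {x y : ℝ}
    (hW : ∀ t ∈ Set.Ioo y x, h' t ≠ 0) (hxy : h x < h y) {t : ℝ} (ht : t ∈ Set.Ioo y x) :
    h t < h y := by
  by_contra hcon
  push Not at hcon
  have hc : ContinuousOn h (Set.Icc y x) := fun z _ => (hd z).continuousAt.continuousWithinAt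
  obtain ⟨m, hm, hmax⟩ := isCompact_Icc.exists_isMaxOn (Set.nonempty_Icc.2 (ht.1.trans ht.2).le) hc
  have htI : t ∈ Set.Icc y x := ⟨ht.1.le, ht.2.le⟩
  have hint : ∃ m' ∈ Set.Ioo y x, IsMaxOn h (Set.Icc y x) m' := by
    by_cases hmy : m = y
    · refine ⟨t, ht, fun z hz => ?_⟩
      have h1 : h z ≤ h m := hmax hz
      show h z ≤ h t
      rw [hmy] at h1
      linarith
    · refine ⟨m, ⟨lt_of_le_of_ne hm.1 (Ne.symm hmy), lt_of_le_of_ne hm.2 ?_⟩, hmax⟩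
      rintro rfl
      have h1 : h t ≤ h m := hmax htI
      linarith
  obtain ⟨m', hm', hmax'⟩ := hint
  have hloc : IsLocalMax h m' := hmax'.isLocalMax (Icc_mem_nhds hm'.1 hm'.2)
  exact hW m' hm' (hloc.hasDerivAt_eq_zero (hd m'))

theorem sides_not_both {h h' : ℝ → ℝ} (hd : ∀ x, HasDerivAt h (h' x) x) {a z : ℝ} (haz : a < z)
    (hW : ∀ t ∈ Set.Ioo a z, h' t ≠ 0) (h1 : ∀ᶠ x in 𝓝[>] a, h x < h a)
    (h2 : ∀ᶠ x in 𝓝[<] z, h x < h z) : False := by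
  have hc : ContinuousOn h (Set.Icc a z) := fun z _ => (hd z).continuousAt.continuousWithinAt
  obtain ⟨m, hm, hmin⟩ := isCompact_Icc.exists_isMinOn (Set.nonempty_Icc.2 haz.le) hc
  obtain ⟨x1, hx1, hx1I⟩ := (h1.and (Ioo_mem_nhdsGT haz)).exists
  obtain ⟨x2, hx2, hx2I⟩ := (h2.and (Ioo_mem_nhdsLT haz)).exists
  have hma : m ≠ a := by
    rintro rfl
    have : h m ≤ h x1 := hmin ⟨hx1I.1.le, hx1I.2.le⟩
    linarith
  have hmz : m ≠ z := by
    rintro rfl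
    have : h m ≤ h x2 := hmin ⟨hx2I.1.le, hx2I.2.le⟩
    linarith
  have hmI : m ∈ Set.Ioo a z := ⟨lt_of_le_of_ne hm.1 (Ne.symm hma), lt_of_le_of_ne hm.2 hmz⟩
  have hloc : IsLocalMin h m := hmin.isLocalMin (Icc_mem_nhds hmI.1 hmI.2)
  exact hW m hmI (hloc.hasDerivAt_eq_zero (hd m))

open Classical in
theorem sides_aux {h h' : ℝ → ℝ} (hd : ∀ x, HasDerivAt h (h' x) x) (s : Finset ℝ) :
    ∀ z : ℝ, (∀ y ∈ s, y < z) → (∀ x < z, x ∉ s → h' x ≠ 0) →
    ∑ y ∈ s, ((if ∀ᶠ x in 𝓝[<] y, h x < h y then 1 else 0) +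
      (if ∀ᶠ x in 𝓝[>] y, h x < h y then 1 else 0)) +
      (if ∀ᶠ x in 𝓝[<] z, h x < h z then 1 else 0) ≤ s.card + 1 := by
  induction s using Finset.induction_on_max with
  | empty =>
    intro z _ _
    split_ifs <;> simp
  | insert a s hmax ih =>
    intro z hz hW
    have has : a ∉ s := fun h => lt_irrefl a (hmax a h)
    have haz : a < z := hz a (Finset.mem_insert_self a s)
    have ih1 := ih a hmax (fun x hx hxs => hW x (hx.trans haz) (by
      rw [Finset.mem_insert]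
      rintro (h1 | h1)
      · exact absurd hx (by rw [h1]; exact lt_irrefl a)
      · exact hxs h1))
    rw [Finset.sum_insert has, Finset.card_insert_of_notMem has]
    have hnb : ¬ ((∀ᶠ x in 𝓝[>] a, h x < h a) ∧ (∀ᶠ x in 𝓝[<] z, h x < h z)) := by
      rintro ⟨h1, h2⟩
      refine sides_not_both hd haz (fun t ht => hW t ht.2 ?_) h1 h2
      rw [Finset.mem_insert]
      rintro (h3 | h3)
      · exact absurd ht.1 (by rw [h3]; exact lt_irrefl a)
      · exact absurd ht.1 (not_lt.2 (hmax t h3).le)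
    have hle : (if ∀ᶠ x in 𝓝[>] a, h x < h a then 1 else 0) +
        (if ∀ᶠ x in 𝓝[<] z, h x < h z then 1 else 0) ≤ 1 := by
      by_cases c1 : ∀ᶠ x in 𝓝[>] a, h x < h a
      · have c2 : ¬ ∀ᶠ x in 𝓝[<] z, h x < h z := fun c2 => hnb ⟨c1, c2⟩
        simp [c1, c2]
      · simp only [if_neg c1]
        split_ifs <;> simp
    omega

open Classical in
/-- Job C (Sides), first part. `W` contains all zeros of the derivative of `h`. The number of pairs
(point of `W`, side) such that `h` is lower on that side is at most `W.card + 1`. -/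
theorem sides {h h' : ℝ → ℝ} (hd : ∀ x, HasDerivAt h (h' x) x) (W : Finset ℝ)
    (hW : ∀ x, x ∉ W → h' x ≠ 0) :
    ∑ y ∈ W, ((if ∀ᶠ x in 𝓝[<] y, h x < h y then 1 else 0) +
      (if ∀ᶠ x in 𝓝[>] y, h x < h y then 1 else 0)) ≤ W.card + 1 := by
  obtain ⟨z, hz⟩ : ∃ z : ℝ, ∀ y ∈ W, y < z := by
    obtain ⟨M, hM⟩ := W.bddAbove
    exact ⟨M + 1, fun y hy => lt_of_le_of_lt (hM hy) (by linarith)⟩
  have := sides_aux hd W z hz (fun x _ hx => hW x hx)
  omega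

/-- Job C, second part. -/
theorem side_left {h h' : ℝ → ℝ} (hd : ∀ x, HasDerivAt h (h' x) x) {y a : ℝ}
    (hW : ∀ x ∈ Set.Ioo a y, h' x ≠ 0) {x : ℝ} (hx : x ∈ Set.Ioo a y) (hxy : h x < h y) :
    ∀ᶠ x in 𝓝[<] y, h x < h y := by
  filter_upwards [Ioo_mem_nhdsLT hx.2] with t ht
  exact sides_lt_left hd (fun s hs => hW s ⟨hx.1.trans hs.1, hs.2⟩) hxy ht

/-- Job C, third part. -/
theorem side_right {h h' : ℝ → ℝ} (hd : ∀ x, HasDerivAt h (h' x) x) {y a : ℝ}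
    (hW : ∀ x ∈ Set.Ioo y a, h' x ≠ 0) {x : ℝ} (hx : x ∈ Set.Ioo y a) (hxy : h x < h y) :
    ∀ᶠ x in 𝓝[>] y, h x < h y := by
  filter_upwards [Ioo_mem_nhdsGT hx.1] with t ht
  exact sides_lt_right hd (fun s hs => hW s ⟨hs.1, hs.2.trans hx.2⟩) hxy ht

end MP_4bcb19_an
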