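import Pool.Agent.Lib.MP_4bcb19_an.Zero
import Pool.Agent.Lib.MP_4bcb19_an.Sides
import Pool.Agent.Lib.MP_4bcb19_an.RootsCont

/-! # Monotonicity of the number of roots in `Ω` -/

open Polynomial Filter Topology

namespace MP_4bcb19_an

noncomputable section

/-- Squared curvature. -/
def hh (q : ℝ[X]) (x : ℝ) : ℝ := (derivative q).eval x ^ 2 / (1 + q.eval x ^ 2) ^ 3

/-- Derivative of the squared curvature. -/
def hh' (q : ℝ[X]) (x : ℝ) : ℝ :=
  2 * (derivative q).eval x * (NN q).eval x / (1 + q.eval x ^ 2) ^ 4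

theorem hh_hasDerivAt (q : ℝ[X]) (x : ℝ) : HasDerivAt (hh q) (hh' q x) x := hasDerivAt_h q x

open Classical in
/-- Number of sides of `y` on which `hh q` is smaller than at `y`. -/
def side (q : ℝ[X]) (y : ℝ) : ℕ :=
  (if ∀ᶠ x in 𝓝[<] y, hh q x < hh q y then 1 else 0) +
    (if ∀ᶠ x in 𝓝[>] y, hh q x < hh q y then 1 else 0)

theorem one_add_sq_pos (q : ℝ[X]) (x : ℝ) : 0 < 1 + q.eval x ^ 2 := by positivity

theorem root_real_iff (q : ℝ[X]) (hq : 1 ≤ q.natDegree) (α : ℝ) (x : ℝ) :
    (x : ℂ) ∈ (G q α).roots ↔ hh q x = α ^ 2 := by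
  rw [mem_roots_G q hq, Q1_ofReal, PP_ofReal, hh]
  have h := one_add_sq_pos q x
  rw [div_eq_iff (by positivity)]
  norm_cast

theorem tuple_count {D : ℕ} {z : Fin D → ℂ} {s : Multiset ℂ}
    (h : s = (Finset.univ : Finset (Fin D)).val.map z) (x : ℂ) :
    s.count x = (Finset.univ.filter (fun i => z i = x)).card := by
  rw [h, Multiset.count_map, ← Finset.filter_val, Finset.card_val]
  congr 1
  ext i
  simp [eq_comm]

theorem tuple_cnt {D : ℕ} {z : Fin D → ℂ} {s : Multiset ℂ}
    (h : s = (Finset.univ : Finset (Fin D)).val.map z) (p : ℂ → Prop) [DecidablePred p] :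
    cnt p s = (Finset.univ.filter (fun i => p (z i))).card := by
  unfold cnt
  rw [h, Multiset.countP_map, ← Finset.card_val, Finset.filter_val]
  congr!

theorem tuple_mem {D : ℕ} {z : Fin D → ℂ} {s : Multiset ℂ}
    (h : s = (Finset.univ : Finset (Fin D)).val.map z) (i : Fin D) : z i ∈ s := by
  rw [h, Multiset.mem_map]
  exact ⟨i, Finset.mem_univ_val i, rfl⟩

/-- a common radius. -/
theorem common_radius (T : Finset ℂ) {p : ℂ → ℂ → Prop} (h : ∀ y ∈ T, ∀ᶠ x in 𝓝 y, p y x) :
    ∃ ε : ℝ, 0 < ε ∧ ∀ y ∈ T, ∀ x, ‖x - y‖ < ε → p y x := by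
  have h1 : ∀ y ∈ T, ∀ᶠ ε : ℝ in 𝓝[>] 0, ∀ x, ‖x - y‖ < ε → p y x := by
    intro y hy
    obtain ⟨δ, hδ, h2⟩ := Metric.eventually_nhds_iff.1 (h y hy)
    filter_upwards [Ioo_mem_nhdsGT hδ] with ε hε x hx
    apply h2
    rw [dist_eq_norm]
    exact hx.trans hε.2
  have h2 := (Finset.eventually_all T).2 h1
  obtain ⟨ε, h3, h4⟩ := (h2.and self_mem_nhdsWithin).exists
  exact ⟨ε, h4, h3⟩

theorem right_le (q : ℝ[X]) (hq : 1 ≤ q.natDegree) {α₀ : ℝ} (h0 : 0 < α₀) :
    ∀ᶠ α in 𝓝[>] α₀, cnt (· ∈ Om q) (G q α).roots ≤ cnt (· ∈ Om q) (G q α₀).roots := by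
  classical
  obtain ⟨ε, hε, h1⟩ := common_radius (G q α₀).roots.toFinset
    (p := fun y x => y ∉ Om q → ∀ α : ℝ, α₀ < α → Q1 q x ^ 2 = (α : ℂ) ^ 2 * PP q x ^ 3 →
      x ∉ Om q) (by
      intro y hy
      rw [Multiset.mem_toFinset, mem_roots_G q hq] at hy
      by_cases h : y ∈ Om q
      · exact Eventually.of_forall fun x h2 => absurd h h2
      · exact (stay_out q hq h0 hy h).mono fun x hx _ => hx)
  have h2 := (roots_cont q hq α₀ h0 ε hε).filter_mono (nhdsWithin_le_nhds (s := Set.Ioi α₀))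
  filter_upwards [h2, self_mem_nhdsWithin] with α hα1 hα2
  obtain ⟨z, w, hz, hw, hzw⟩ := hα1
  rw [tuple_cnt hz, tuple_cnt hw]
  apply Finset.card_le_card
  intro i hi
  rw [Finset.mem_filter] at hi ⊢
  refine ⟨hi.1, ?_⟩
  by_contra h3
  exact h1 (w i) (Multiset.mem_toFinset.2 (tuple_mem hw i)) (z i) (hzw i) h3 α hα2
    ((mem_roots_G q hq _ _).1 (tuple_mem hz i)) hi.2

/-- At most one real root in an interval without zeros of `q' N`. -/
theorem one_side (q : ℝ[X]) (hq : 1 ≤ q.natDegree) {α : ℝ} {a b : ℝ}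
    (hab : ∀ x ∈ Set.Ioo a b, hh' q x ≠ 0) {D : ℕ} {z : Fin D → ℂ}
    (hz : (G q α).roots = (Finset.univ : Finset (Fin D)).val.map z) {i j : Fin D}
    (hi : (z i).im = 0) (hj : (z j).im = 0) (hi' : (z i).re ∈ Set.Ioo a b)
    (hj' : (z j).re ∈ Set.Ioo a b) : i = j := by
  classical
  have hzi : (((z i).re : ℝ) : ℂ) = z i := by apply Complex.ext <;> simp [hi]
  have hzj : (((z j).re : ℝ) : ℂ) = z j := by apply Complex.ext <;> simp [hj]
  have h1 : hh q (z i).re = α ^ 2 := by
    rw [← root_real_iff q hq, hzi]; exact tuple_mem hz i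
  have h2 : hh q (z j).re = α ^ 2 := by
    rw [← root_real_iff q hq, hzj]; exact tuple_mem hz j
  have key : ∀ s t : ℝ, s ∈ Set.Ioo a b → t ∈ Set.Ioo a b → hh q s = hh q t → ¬ s < t := by
    intro s t hs ht hst hlt
    obtain ⟨c, hc, hc2⟩ := exists_hasDerivAt_eq_zero hlt
      (fun x _ => (hh_hasDerivAt q x).continuousAt.continuousWithinAt) hst
      (fun x _ => hh_hasDerivAt q x)
    exact hab c ⟨hs.1.trans hc.1, hc.2.trans ht.2⟩ hc2
  have h3 : (z i).re = (z j).re := by
    rcases lt_trichotomy (z i).re (z j).re with h | h | h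
    · exact absurd h (key _ _ hi' hj' (h1.trans h2.symm))
    · exact h
    · exact absurd h (key _ _ hj' hi' (h2.trans h1.symm))
  have h4 : z i = z j := by rw [← hzi, ← hzj, h3]
  by_contra hij
  have h5 := hab _ hi'
  have h6 : (derivative q).eval (z i).re ≠ 0 := by
    intro h; apply h5; simp [hh', h]
  have h7 : (NN q).eval (z i).re ≠ 0 := by
    intro h; apply h5; simp [hh', h]
  have h8 : (G q α).roots.count (z i) ≤ 1 := by
    apply simple_root q hq
    · rw [← hzi, Q1_ofReal]; exact_mod_cast h6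
    · have h9 : Q (NN q) (z i) ≠ 0 := by
        rw [← hzi, Q_ofReal]; exact_mod_cast h7
      exact h9
  rw [tuple_count hz] at h8
  rw [Finset.card_le_one] at h8
  exact hij (h8 i (by simp) j (by simp [h4]))

/-- The left jump. -/
theorem left_ge (q : ℝ[X]) (hq : 1 ≤ q.natDegree) {α₀ : ℝ} (h0 : 0 < α₀) (Y : Finset ℝ)
    (hY : ∀ y ∈ Y, hh q y = α₀ ^ 2) :
    ∀ᶠ α in 𝓝[<] α₀, (cnt (· ∈ Om q) (G q α₀).roots : ℤ) +
      ∑ y ∈ Y, (((G q α₀).roots.count (y : ℂ) : ℤ) - side q y) ≤
        cnt (· ∈ Om q) (G q α).roots := by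
  classical
  -- zeros of `hh'`
  have hNq : NN q * derivative q ≠ 0 := by
    apply mul_ne_zero (NN_ne_zero q hq)
    intro h
    have := Polynomial.derivative_eq_zero.1 h
    omega
  have hiso : ∀ y : ℝ, ∃ δ : ℝ, 0 < δ ∧ ∀ x : ℝ, |x - y| < δ → x ≠ y → hh' q x ≠ 0 := by
    intro y
    have h1 : (((NN q * derivative q).roots.toFinset.erase y : Finset ℝ) : Set ℝ)ᶜ ∈ 𝓝 y := by
      apply IsOpen.mem_nhds
      · exact (Finset.finite_toSet _).isClosed.isOpen_compl
      · simp
    obtain ⟨δ, hδ, h2⟩ := Metric.mem_nhds_iff.1 h1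
    refine ⟨δ, hδ, fun x hx hxy h => ?_⟩
    have h3 : x ∈ (((NN q * derivative q).roots.toFinset.erase y : Finset ℝ) : Set ℝ)ᶜ :=
      h2 (by rw [Metric.mem_ball, Real.dist_eq]; exact hx)
    apply h3
    rw [Finset.mem_coe, Finset.mem_erase, Multiset.mem_toFinset, mem_roots hNq, IsRoot.def,
      eval_mul]
    refine ⟨hxy, ?_⟩
    have h4 := one_add_sq_pos q x
    rw [hh', div_eq_zero_iff] at h
    rcases h with h | h
    · have h5 : 2 * ((derivative q).eval x * (NN q).eval x) = 0 := by linarith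
      have h6 := (mul_eq_zero.1 h5).resolve_left two_ne_zero
      linarith
    · exact absurd h (by positivity)
  choose δ hδ hδ2 using hiso
  -- the radius
  obtain ⟨ε, hε, h1⟩ := common_radius (G q α₀).roots.toFinset
    (p := fun y x => (y ∈ Om q → x ∈ Om q) ∧ (y.im = 0 → |x.re - y.re| < δ y.re) ∧
      (y.im = 0 → ∀ α : ℝ, 0 < α → α < α₀ → Q1 q x ^ 2 = (α : ℂ) ^ 2 * PP q x ^ 3 →
      x.im ≠ 0 → x ∈ Om q)) (by
      intro y hy
      rw [Multiset.mem_toFinset, mem_roots_G q hq] at hy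
      refine Filter.Eventually.and ?_ (Filter.Eventually.and ?_ ?_)
      · by_cases h : y ∈ Om q
        · exact (Om_nhds q h).mono fun x hx _ => hx
        · exact Eventually.of_forall fun x h2 => absurd h2 h
      · have h2 : ∀ᶠ x : ℂ in 𝓝 y, |x.re - y.re| < δ y.re := by
          have h3 : ContinuousAt (fun x : ℂ => |x.re - y.re|) y := by fun_prop
          have h4 : |y.re - y.re| < δ y.re := by simpa using hδ y.re
          exact h3.eventually (gt_mem_nhds h4)
        exact h2.mono fun x hx _ => hx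
      · by_cases h : y.im = 0
        · exact (come_in q hq h0 hy h).mono fun x hx _ => hx
        · exact Eventually.of_forall fun x h2 => absurd h2 h)
  have h2 := (roots_cont q hq α₀ h0 ε hε).filter_mono (nhdsWithin_le_nhds (s := Set.Iio α₀))
  have h3 : ∀ᶠ α : ℝ in 𝓝[<] α₀, 0 < α :=
    (lt_mem_nhds h0).filter_mono nhdsWithin_le_nhds
  filter_upwards [h2, self_mem_nhdsWithin, h3] with α hα1 hα2 hα3
  obtain ⟨z, w, hz, hw, hzw⟩ := hα1
  have hα2' : α < α₀ := hα2
  rw [tuple_cnt hz, tuple_cnt hw]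
  -- the pieces
  set A : Finset (Fin (6 * q.natDegree)) := Finset.univ.filter (fun i => w i ∈ Om q) with hA
  set I : ℝ → Finset (Fin (6 * q.natDegree)) := fun y => Finset.univ.filter (fun i => w i = y)
    with hI
  set R : ℝ → Finset (Fin (6 * q.natDegree)) := fun y => (I y).filter (fun i => (z i).im = 0)
    with hR
  have hIim : ∀ y, ∀ i ∈ I y, w i = y := by
    intro y i hi
    simpa [hI] using hi
  have hRle : ∀ y ∈ Y, (R y).card ≤ side q y := by
    intro y hy
    have hmem : ∀ i ∈ R y, (z i).im = 0 ∧ |(z i).re - y| < δ y ∧ hh q (z i).re = α ^ 2 := by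
      intro i hi
      rw [hR, Finset.mem_filter] at hi
      have h4 := hIim y i hi.1
      have h5 := (h1 (w i) (Multiset.mem_toFinset.2 (tuple_mem hw i)) (z i) (hzw i)).2.1
      rw [h4] at h5
      have hzi : (((z i).re : ℝ) : ℂ) = z i := by apply Complex.ext <;> simp [hi.2]
      refine ⟨hi.2, by simpa using h5, ?_⟩
      rw [← root_real_iff q hq, hzi]; exact tuple_mem hz i
    have hlt : ∀ i ∈ R y, hh q (z i).re < hh q y := by
      intro i hi
      rw [(hmem i hi).2.2, hY y hy]
      exact pow_lt_pow_left₀ hα2' hα3.le two_ne_zero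
    have hne : ∀ i ∈ R y, (z i).re ≠ y := by
      intro i hi h
      have := hlt i hi
      rw [h] at this
      exact lt_irrefl _ this
    have hsplit : (R y).card = ((R y).filter (fun i => (z i).re < y)).card +
        ((R y).filter (fun i => ¬ (z i).re < y)).card :=
      (Finset.card_filter_add_card_filter_not _).symm
    rw [hsplit, side]
    apply add_le_add
    · split_ifs with hs
      · rw [Finset.card_le_one]
        intro i hi j hj
        rw [Finset.mem_filter] at hi hj
        have hi2 := hmem i hi.1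
        have hj2 := hmem j hj.1
        refine one_side q hq (a := y - δ y) (b := y) ?_ hz hi2.1 hj2.1 ?_ ?_
        · intro x hx
          apply hδ2 y x _ hx.2.ne
          rw [abs_lt]; constructor <;> linarith [hx.1, hx.2, hδ y]
        · have := abs_lt.1 hi2.2.1; exact ⟨by linarith, hi.2⟩
        · have := abs_lt.1 hj2.2.1; exact ⟨by linarith, hj.2⟩
      · rw [Nat.le_zero, Finset.card_eq_zero, Finset.filter_eq_empty_iff]
        intro i hi hi2
        apply hs
        have hi3 := hmem i hi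
        refine side_left (hh_hasDerivAt q) (a := y - δ y) ?_ (x := (z i).re) ?_ (hlt i hi)
        · intro x hx
          apply hδ2 y x _ hx.2.ne
          rw [abs_lt]; constructor <;> linarith [hx.1, hx.2, hδ y]
        · have := abs_lt.1 hi3.2.1; exact ⟨by linarith, hi2⟩
    · split_ifs with hs
      · rw [Finset.card_le_one]
        intro i hi j hj
        rw [Finset.mem_filter] at hi hj
        have hi2 := hmem i hi.1
        have hj2 := hmem j hj.1
        have hi4 : y < (z i).re := lt_of_le_of_ne (not_lt.1 hi.2) (hne i hi.1).symm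
        have hj4 : y < (z j).re := lt_of_le_of_ne (not_lt.1 hj.2) (hne j hj.1).symm
        refine one_side q hq (a := y) (b := y + δ y) ?_ hz hi2.1 hj2.1 ?_ ?_
        · intro x hx
          apply hδ2 y x _ hx.1.ne'
          rw [abs_lt]; constructor <;> linarith [hx.1, hx.2, hδ y]
        · have := abs_lt.1 hi2.2.1; exact ⟨hi4, by linarith⟩
        · have := abs_lt.1 hj2.2.1; exact ⟨hj4, by linarith⟩
      · rw [Nat.le_zero, Finset.card_eq_zero, Finset.filter_eq_empty_iff]
        intro i hi hi2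
        apply hs
        have hi3 := hmem i hi
        have hi4 : y < (z i).re := lt_of_le_of_ne (not_lt.1 hi2) (hne i hi).symm
        refine side_right (hh_hasDerivAt q) (a := y + δ y) ?_ (x := (z i).re) ?_ (hlt i hi)
        · intro x hx
          apply hδ2 y x _ hx.1.ne'
          rw [abs_lt]; constructor <;> linarith [hx.1, hx.2, hδ y]
        · have := abs_lt.1 hi3.2.1; exact ⟨hi4, by linarith⟩
  -- nonreal indices near `y`
  have hsub : ∀ y, I y \ R y ⊆ Finset.univ.filter (fun i => z i ∈ Om q) := by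
    intro y i hi
    rw [Finset.mem_sdiff] at hi
    have h4 := hIim y i hi.1
    have h5 : (z i).im ≠ 0 := by
      intro h; exact hi.2 (by rw [hR, Finset.mem_filter]; exact ⟨hi.1, h⟩)
    rw [Finset.mem_filter]
    refine ⟨Finset.mem_univ i, ?_⟩
    exact (h1 (w i) (Multiset.mem_toFinset.2 (tuple_mem hw i)) (z i) (hzw i)).2.2
      (by rw [h4]; simp) α hα3 hα2' ((mem_roots_G q hq _ _).1 (tuple_mem hz i)) h5
  have hA' : A ⊆ Finset.univ.filter (fun i => z i ∈ Om q) := by
    intro i hi
    rw [hA, Finset.mem_filter] at hi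
    rw [Finset.mem_filter]
    exact ⟨hi.1, (h1 (w i) (Multiset.mem_toFinset.2 (tuple_mem hw i)) (z i) (hzw i)).1 hi.2⟩
  have hdis1 : Disjoint A (Y.biUnion (fun y => I y \ R y)) := by
    rw [Finset.disjoint_left]
    intro i hi hi2
    rw [Finset.mem_biUnion] at hi2
    obtain ⟨y, hy, hi3⟩ := hi2
    rw [Finset.mem_sdiff] at hi3
    have h4 := hIim y i hi3.1
    rw [hA, Finset.mem_filter] at hi
    exact not_mem_Om_of_im q (by rw [h4]; simp) hi.2
  have hdis2 : (Y : Set ℝ).PairwiseDisjoint (fun y => I y \ R y) := by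
    intro y _ y' _ hyy
    rw [Function.onFun, Finset.disjoint_left]
    intro i hi hi2
    rw [Finset.mem_sdiff] at hi hi2
    have h4 := hIim y i hi.1
    have h5 := hIim y' i hi2.1
    rw [h4] at h5
    exact hyy (by exact_mod_cast h5)
  have hcard : A.card + ∑ y ∈ Y, (I y \ R y).card ≤
      (Finset.univ.filter (fun i => z i ∈ Om q)).card := by
    rw [← Finset.card_biUnion hdis2, ← Finset.card_union_of_disjoint hdis1]
    apply Finset.card_le_card
    apply Finset.union_subset hA'
    rw [Finset.biUnion_subset]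
    exact fun y _ => hsub y
  have hterm : ∀ y ∈ Y, (((G q α₀).roots.count (y : ℂ) : ℤ) - side q y) ≤
      ((I y \ R y).card : ℤ) := by
    intro y hy
    rw [tuple_count hw]
    have h4 : (I y \ R y).card = (I y).card - (R y).card :=
      Finset.card_sdiff_of_subset (Finset.filter_subset _ _)
    have h5 : (R y).card ≤ (I y).card := Finset.card_le_card (Finset.filter_subset _ _)
    have h6 := hRle y hy
    rw [h4]
    push_cast [Nat.cast_sub h5]
    have h7 : ((Finset.univ.filter (fun i => w i = (y : ℂ))).card : ℤ) = (I y).card := rfl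
    rw [h7]
    have h8 : ((R y).card : ℤ) ≤ side q y := by exact_mod_cast h6
    linarith
  have hsum := Finset.sum_le_sum hterm
  have hcard' : (A.card : ℤ) + ∑ y ∈ Y, ((I y \ R y).card : ℤ) ≤
      ((Finset.univ.filter (fun i => z i ∈ Om q)).card : ℤ) := by exact_mod_cast hcard
  linarith

end

end MP_4bcb19_an
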