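import Pool.Agent.Lib.MP_4bcb19_an.Defs

open Polynomial Filter Topology

namespace MP_4bcb19_an

/-- Job E (Curvature). -/
theorem NN_ne_zero (q : ℝ[X]) (hq : 1 ≤ q.natDegree) : NN q ≠ 0 := by
  intro h0
  have hq0 : q ≠ 0 := by
    intro h
    rw [h, natDegree_zero] at hq
    omega
  have ha : q.leadingCoeff ≠ 0 := leadingCoeff_ne_zero.mpr hq0
  obtain ⟨n, hn⟩ : ∃ n, q.natDegree = n + 1 := ⟨q.natDegree - 1, by omega⟩
  rcases n with _ | n
  · -- degree one
    have hd : derivative q ≠ 0 := by
      intro h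
      have := derivative_eq_zero.mp h
      omega
    have hdd : derivative (derivative q) = 0 := by
      have h1 : (derivative q).natDegree ≤ 0 := by
        have := natDegree_derivative_le q
        omega
      rw [eq_C_of_natDegree_le_zero h1, derivative_C]
    unfold NN at h0
    rw [hdd, zero_mul, zero_sub, neg_eq_zero] at h0
    have h3 : (3 : ℝ[X]) ≠ 0 := by norm_num
    exact mul_ne_zero (mul_ne_zero h3 hq0) (pow_ne_zero 2 hd) h0
  · -- degree at least two
    have hcoef : (NN q).coeff (n + (2 * (n + 2))) =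
        -(q.leadingCoeff ^ 3 * ((n : ℝ) + 2) * (2 * (n : ℝ) + 5)) := by
      have hl : q.coeff (n + 2) = q.leadingCoeff := by
        rw [leadingCoeff, hn]
      have d1 : (derivative q).natDegree ≤ n + 1 := by
        have := natDegree_derivative_le q
        omega
      have d2 : (derivative (derivative q)).natDegree ≤ n := by
        have := natDegree_derivative_le (derivative q)
        omega
      have c1 : (derivative q).coeff (n + 1) = q.leadingCoeff * ((n : ℝ) + 2) := by
        rw [coeff_derivative, hl]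
        push_cast
        ring
      have c2 : (derivative (derivative q)).coeff n =
          q.leadingCoeff * ((n : ℝ) + 2) * ((n : ℝ) + 1) := by
        rw [coeff_derivative, c1]
      have s1 : (q ^ 2).natDegree ≤ 2 * (n + 2) := by
        refine natDegree_pow_le.trans ?_
        rw [hn]
      have s2 : (1 + q ^ 2).natDegree ≤ 2 * (n + 2) := by
        refine (natDegree_add_le _ _).trans ?_
        rw [natDegree_one]
        exact max_le (Nat.zero_le _) s1
      have e1 : (q ^ 2).coeff (2 * (n + 2)) = q.leadingCoeff ^ 2 := by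
        rw [pow_two, two_mul, coeff_mul_add_eq_of_natDegree_le (by omega) (by omega), hl]
        ring
      have e2 : (1 + q ^ 2).coeff (2 * (n + 2)) = q.leadingCoeff ^ 2 := by
        rw [coeff_add, e1, coeff_one, if_neg (by omega), zero_add]
      have t1 : (derivative q ^ 2).natDegree ≤ 2 * (n + 1) := by
        refine natDegree_pow_le.trans ?_
        omega
      have t2 : (derivative q ^ 2).coeff (2 * (n + 1)) =
          (q.leadingCoeff * ((n : ℝ) + 2)) ^ 2 := by
        rw [pow_two, two_mul, coeff_mul_add_eq_of_natDegree_le d1 d1, c1]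
        ring
      have t3 : (3 * q * derivative q ^ 2).coeff (n + (2 * (n + 2))) =
          3 * q.leadingCoeff * (q.leadingCoeff * ((n : ℝ) + 2)) ^ 2 := by
        have e : n + (2 * (n + 2)) = (n + 2) + 2 * (n + 1) := by ring
        have h3 : (3 * q : ℝ[X]) = C 3 * q := by rw [map_ofNat]
        rw [e, coeff_mul_add_eq_of_natDegree_le _ t1, t2, h3, coeff_C_mul, hl]
        · rw [h3]
          refine (natDegree_C_mul_le _ _).trans ?_
          omega
      unfold NN
      rw [coeff_sub, coeff_mul_add_eq_of_natDegree_le d2 s2, c2, e2, t3]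
      ring
    rw [h0, coeff_zero] at hcoef
    have h1 : q.leadingCoeff ^ 3 * ((n : ℝ) + 2) * (2 * (n : ℝ) + 5) ≠ 0 := by
      have : (0 : ℝ) ≤ n := Nat.cast_nonneg n
      have h2 : (n : ℝ) + 2 ≠ 0 := by positivity
      have h3 : 2 * (n : ℝ) + 5 ≠ 0 := by positivity
      exact mul_ne_zero (mul_ne_zero (pow_ne_zero 3 ha) h2) h3
    apply h1
    linarith

theorem deriv_kappa_eq_zero_iff (p : ℝ[X]) (x : ℝ) :
    deriv (kappa p) x = 0 ↔ (NN (derivative p)).eval x = 0 := by
  set q := derivative p with hq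
  have hu : 0 < 1 + q.eval x ^ 2 := by positivity
  have h1 : HasDerivAt (fun y : ℝ => (derivative q).eval y)
      ((derivative (derivative q)).eval x) x := (derivative q).hasDerivAt x
  have h2 : HasDerivAt (fun y : ℝ => 1 + q.eval y ^ 2)
      (2 * q.eval x * (derivative q).eval x) x := by
    have h := ((q.hasDerivAt x).fun_pow 2).const_add 1
    refine h.congr_deriv ?_
    norm_num
  have h3 := h2.rpow_const (p := (3 : ℝ) / 2) (Or.inl hu.ne')
  have h4 := h1.div h3 (Real.rpow_pos_of_pos hu _).ne'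
  have hk : deriv (kappa p) x = _ := h4.deriv
  rw [hk]
  have hs : 0 < (1 + q.eval x ^ 2) ^ ((1 : ℝ) / 2) := Real.rpow_pos_of_pos hu _
  have e1 : (1 + q.eval x ^ 2) ^ ((3 : ℝ) / 2) =
      (1 + q.eval x ^ 2) * (1 + q.eval x ^ 2) ^ ((1 : ℝ) / 2) := by
    rw [← Real.rpow_one_add' hu.le (by norm_num)]
    norm_num
  have e2 : (3 : ℝ) / 2 - 1 = 1 / 2 := by norm_num
  rw [e2, div_eq_zero_iff]
  have hne : ((1 + q.eval x ^ 2) ^ ((3 : ℝ) / 2)) ^ 2 ≠ 0 := by positivity
  have e3 : (derivative (derivative q)).eval x * (1 + q.eval x ^ 2) ^ ((3 : ℝ) / 2) -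
      (derivative q).eval x * (2 * q.eval x * (derivative q).eval x * ((3 : ℝ) / 2) *
        (1 + q.eval x ^ 2) ^ ((1 : ℝ) / 2)) =
      (1 + q.eval x ^ 2) ^ ((1 : ℝ) / 2) * (NN q).eval x := by
    rw [e1]
    unfold NN
    simp only [eval_sub, eval_mul, eval_add, eval_one, eval_pow, eval_ofNat]
    ring
  rw [e3]
  constructor
  · rintro (h | h)
    · exact (mul_eq_zero.mp h).resolve_left hs.ne'
    · exact absurd h hne
  · intro h
    left
    rw [h, mul_zero]

/-- `x ^ 4 + 2 x ^ 2` has a single curvature-critical point. -/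
theorem quartic : (X ^ 4 + 2 * X ^ 2 : ℝ[X]).natDegree = 4 ∧
    {x : ℝ | deriv (kappa (X ^ 4 + 2 * X ^ 2)) x = 0} = {0} := by
  refine ⟨?_, ?_⟩
  · have h : (X ^ 4 + 2 * X ^ 2 : ℝ[X]) = X ^ 4 + C 2 * X ^ 2 := by rw [map_ofNat]
    rw [h]
    compute_degree!
  · ext x
    rw [Set.mem_singleton_iff]
    change deriv (kappa _) x = 0 ↔ _
    rw [deriv_kappa_eq_zero_iff]
    have h : (NN (derivative (X ^ 4 + 2 * X ^ 2 : ℝ[X]))).eval x =
        -(24 * x * (7 + 40 * x ^ 2 + 88 * x ^ 4 + 56 * x ^ 6)) := by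
      unfold NN
      simp
      ring
    rw [h]
    have hp : 0 < 7 + 40 * x ^ 2 + 88 * x ^ 4 + 56 * x ^ 6 := by positivity
    constructor
    · intro h
      rw [neg_eq_zero] at h
      rcases mul_eq_zero.mp h with h | h
      · linarith
      · exact absurd h hp.ne'
    · intro h
      rw [h]
      ring

/-- The derivative of `q' ^ 2 / (1 + q ^ 2) ^ 3`. -/
theorem hasDerivAt_h (q : ℝ[X]) (x : ℝ) :
    HasDerivAt (fun x : ℝ => (derivative q).eval x ^ 2 / (1 + q.eval x ^ 2) ^ 3)
      (2 * (derivative q).eval x * (NN q).eval x / (1 + q.eval x ^ 2) ^ 4) x := by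
  have hu : 0 < 1 + q.eval x ^ 2 := by positivity
  have h1 := ((derivative q).hasDerivAt x).fun_pow 2
  have h2 := (((q.hasDerivAt x).fun_pow 2).const_add 1).fun_pow 3
  have hne : 1 + q.eval x ^ 2 ≠ 0 := hu.ne'
  have h3 := h1.fun_div h2 (pow_ne_zero 3 hne)
  refine h3.congr_deriv ?_
  unfold NN
  simp only [eval_sub, eval_mul, eval_add, eval_one, eval_pow, eval_ofNat]
  field_simp
  push_cast
  ring

end MP_4bcb19_an
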