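import Mathlib

/-! # Curvature of graphs of polynomials: the Newton map of `q/√(1+q²)`. Definitions. -/

open Polynomial Filter Topology

namespace MP_4bcb19_an

noncomputable section

/-- The complexified polynomial. -/
abbrev qc (q : ℝ[X]) : ℂ[X] := q.map (algebraMap ℝ ℂ)

/-- `q` on the complex plane. -/
def Q (q : ℝ[X]) (x : ℂ) : ℂ := (qc q).eval x

/-- `q'` on the complex plane. -/
def Q1 (q : ℝ[X]) (x : ℂ) : ℂ := (derivative (qc q)).eval x

/-- `1 + q ^ 2` on the complex plane. -/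
def PP (q : ℝ[X]) (x : ℂ) : ℂ := 1 + Q q x ^ 2

/-- The Newton map of `q / √(1 + q ^ 2)`. -/
def FF (q : ℝ[X]) (x : ℂ) : ℂ := x - Q q x * PP q x / Q1 q x

/-- The set `Ω`. -/
def Om (q : ℝ[X]) : Set ℂ := {x | x.im * (FF q x).im < 0}

/-- The polynomial `q' ^ 2 - α ^ 2 (1 + q ^ 2) ^ 3`. -/
def G (q : ℝ[X]) (α : ℝ) : ℂ[X] :=
  derivative (qc q) ^ 2 - C ((α : ℂ) ^ 2) * (1 + qc q ^ 2) ^ 3

/-- The numerator of the derivative of the curvature, `q'' (1 + q ^ 2) - 3 q q' ^ 2`. -/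
def NN (q : ℝ[X]) : ℝ[X] :=
  derivative (derivative q) * (1 + q ^ 2) - 3 * q * derivative q ^ 2

theorem G_eval (q : ℝ[X]) (α : ℝ) (x : ℂ) :
    (G q α).eval x = Q1 q x ^ 2 - (α : ℂ) ^ 2 * PP q x ^ 3 := by
  simp [G, Q1, PP, Q]

/-- Signed curvature of the graph of `p`. -/
def kappa (p : ℝ[X]) (x : ℝ) : ℝ :=
  (derivative (derivative p)).eval x / (1 + (derivative p).eval x ^ 2) ^ ((3 : ℝ) / 2)

end

end MP_4bcb19_an
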