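import Pool.Agent.Lib.MP_4bcb19_an.Defs

open Polynomial Filter Topology

namespace MP_4bcb19_an

private theorem inf_rev (p : ℝ[X]) (x : ℂ) (hx : x ≠ 0) :
    aeval x p = aeval x⁻¹ (reverse p) * x ^ p.natDegree := by
  let _ : Invertible x := invertibleOfNonzero hx
  have h := eval₂_reverse_mul_pow (algebraMap ℝ ℂ) x p
  rw [aeval_def, aeval_def, ← h, invOf_eq_inv]

private theorem inf_aeval_zero (p : ℝ[X]) :
    aeval (0 : ℂ) (reverse p) = (p.leadingCoeff : ℂ) := by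
  rw [aeval_def, eval₂_at_zero, coeff_zero_reverse]
  rfl

private theorem inf_analytic (p : ℝ[X]) (z : ℂ) : AnalyticAt ℂ (fun t : ℂ => aeval t p) z := by
  have h : Differentiable ℂ (fun t : ℂ => aeval t p) := p.differentiable_aeval
  exact h.analyticAt z

/-- The imaginary part inequality from a strict derivative and conjugation symmetry. -/
private theorem inf_im (j : ℂ → ℂ) (c : ℝ) (hc : 0 < c) (hj : HasStrictDerivAt j (c : ℂ) 0)
    (hconj : ∀ᶠ t in 𝓝 (0 : ℂ), j ((starRingEnd ℂ) t) = (starRingEnd ℂ) (j t)) :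
    ∀ᶠ t in 𝓝 (0 : ℂ), 0 ≤ t.im * (j t).im := by
  have h1 := hj.isLittleO.def (half_pos hc)
  have ht : Tendsto (fun t : ℂ => (t, (starRingEnd ℂ) t)) (𝓝 0) (𝓝 ((0 : ℂ), (0 : ℂ))) := by
    have h2 : Continuous (fun t : ℂ => (t, (starRingEnd ℂ) t)) :=
      continuous_id.prodMk Complex.continuous_conj
    have h3 := h2.tendsto 0
    simpa using h3
  have h4 := ht.eventually h1
  filter_upwards [h4, hconj] with t h5 h6
  rw [h6] at h5
  have e1 : j t - (starRingEnd ℂ) (j t) - (ContinuousLinearMap.toSpanSingleton ℂ (c : ℂ))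
      (t - (starRingEnd ℂ) t) = ((2 * ((j t).im - c * t.im) : ℝ) : ℂ) * Complex.I := by
    apply Complex.ext <;> simp <;> ring
  have e2 : t - (starRingEnd ℂ) t = ((2 * t.im : ℝ) : ℂ) * Complex.I := by
    apply Complex.ext <;> simp
    ring
  rw [e1, e2, norm_mul, norm_mul, Complex.norm_I, mul_one, mul_one, Complex.norm_real,
    Complex.norm_real, Real.norm_eq_abs, Real.norm_eq_abs] at h5
  rw [abs_mul, abs_mul, abs_of_pos (by norm_num : (0 : ℝ) < 2)] at h5
  have h7 : |(j t).im - c * t.im| ≤ c / 2 * |t.im| := by linarith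
  rcases le_or_gt 0 t.im with h8 | h8
  · rw [abs_of_nonneg h8] at h7
    have h9 := (abs_le.mp h7).1
    have h10 : 0 ≤ (j t).im := by nlinarith
    exact mul_nonneg h8 h10
  · rw [abs_of_neg h8] at h7
    have h9 := (abs_le.mp h7).2
    have h10 : (j t).im ≤ 0 := by nlinarith
    exact mul_nonneg_of_nonpos_of_nonpos h8.le h10

/-- Job A (Infinity). Far away the set `Ω` contains no root of `G q α`, `α > 0`. -/
theorem infinity (q : ℝ[X]) (hq : 1 ≤ q.natDegree) :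
    ∃ B : ℝ, ∀ x : ℂ, B ≤ ‖x‖ → ∀ α : ℝ, 0 < α →
      Q1 q x ^ 2 = (α : ℂ) ^ 2 * PP q x ^ 3 → x ∉ Om q := by
  classical
  have hq0 : q ≠ 0 := by rintro rfl; simp at hq
  have ha : q.leadingCoeff ≠ 0 := leadingCoeff_ne_zero.mpr hq0
  obtain ⟨d, hd⟩ : ∃ d, q.natDegree = d := ⟨_, rfl⟩
  rw [hd] at hq
  have hd1 : (derivative q).natDegree = d - 1 := by rw [natDegree_derivative, hd]
  have hlead1 : (derivative q).leadingCoeff = q.leadingCoeff * d := by
    rw [leadingCoeff_derivative, hd]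
  obtain ⟨a, haa⟩ : ∃ a, q.leadingCoeff = a := ⟨_, rfl⟩
  rw [haa] at ha hlead1
  have hac : (a : ℂ) ≠ 0 := by exact_mod_cast ha
  have hdc : (d : ℂ) ≠ 0 := by exact_mod_cast (by omega : d ≠ 0)
  -- functions
  let R0 : ℂ → ℂ := fun t => aeval t (reverse q)
  let R1 : ℂ → ℂ := fun t => aeval t (reverse (derivative q))
  let e : ℂ → ℂ := fun t => R0 t ^ 2 / (t ^ (2 * d) + R0 t ^ 2)
  let s : ℂ → ℂ := fun t => Complex.exp (Complex.log (e t) / 2)
  let φ : ℂ → ℂ := fun t => 1 + R0 t / (R1 t * (e t + s t))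
  have R00 : R0 0 = (a : ℂ) := by
    show aeval (0 : ℂ) (reverse q) = (a : ℂ)
    rw [inf_aeval_zero, haa]
  have R10 : R1 0 = (a : ℂ) * d := by
    show aeval (0 : ℂ) (reverse (derivative q)) = (a : ℂ) * d
    rw [inf_aeval_zero, hlead1]; push_cast; ring
  have z0 : (0 : ℂ) ^ (2 * d) = 0 := by
    apply zero_pow; omega
  have e0 : e 0 = 1 := by
    show R0 0 ^ 2 / ((0 : ℂ) ^ (2 * d) + R0 0 ^ 2) = 1
    rw [z0, R00, zero_add, div_self (pow_ne_zero 2 hac)]
  have s0 : s 0 = 1 := by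
    show Complex.exp (Complex.log (e 0) / 2) = 1
    rw [e0]; simp
  have aR0 : AnalyticAt ℂ R0 0 := inf_analytic _ _
  have aR1 : AnalyticAt ℂ R1 0 := inf_analytic _ _
  have aden : AnalyticAt ℂ (fun t : ℂ => t ^ (2 * d) + R0 t ^ 2) 0 :=
    ((analyticAt_id).pow _).add (aR0.pow 2)
  have hden0 : (fun t : ℂ => t ^ (2 * d) + R0 t ^ 2) 0 ≠ 0 := by
    show (0 : ℂ) ^ (2 * d) + R0 0 ^ 2 ≠ 0
    rw [z0, R00, zero_add]; exact pow_ne_zero 2 hac
  have ae : AnalyticAt ℂ e 0 := (aR0.pow 2).div aden hden0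
  have as' : AnalyticAt ℂ s 0 := by
    have h1 : AnalyticAt ℂ (fun t => Complex.log (e t)) 0 := by
      apply ae.clog
      rw [e0]; exact Complex.one_mem_slitPlane
    exact (h1.div analyticAt_const (by norm_num)).cexp
  have hes0 : (fun t => R1 t * (e t + s t)) 0 ≠ 0 := by
    show R1 0 * (e 0 + s 0) ≠ 0
    rw [R10, e0, s0]
    exact mul_ne_zero (mul_ne_zero hac hdc) (by norm_num)
  have aφ : AnalyticAt ℂ φ 0 :=
    analyticAt_const.add (aR0.div (aR1.mul (ae.add as')) hes0)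
  have φ0 : φ 0 = ((1 + 1 / (2 * d) : ℝ) : ℂ) := by
    show 1 + R0 0 / (R1 0 * (e 0 + s 0)) = _
    rw [R00, R10, e0, s0]
    push_cast
    field_simp
    norm_num
    ring
  have hdpos : (0 : ℝ) < d := by exact_mod_cast (by omega : 0 < d)
  have hcpos : (0 : ℝ) < 1 + 1 / (2 * d) := by positivity
  have φ0' : φ 0 ≠ 0 := by
    rw [φ0]; exact_mod_cast hcpos.ne'
  let j : ℂ → ℂ := fun t => t * (φ t)⁻¹
  have hj : HasStrictDerivAt j (((1 + 1 / (2 * d) : ℝ)⁻¹ : ℝ) : ℂ) 0 := by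
    have h1 : AnalyticAt ℂ (fun t => (φ t)⁻¹) 0 := aφ.inv φ0'
    have h2 := (hasStrictDerivAt_id (0 : ℂ)).mul h1.hasStrictDerivAt
    have h3 : HasStrictDerivAt j (1 * (φ 0)⁻¹ + id 0 * deriv (fun t => (φ t)⁻¹) 0) 0 := h2
    rw [φ0] at h3
    simpa using h3
  -- eventual facts
  have evR0 : ∀ᶠ t in 𝓝 (0 : ℂ), R0 t ≠ 0 :=
    aR0.continuousAt.eventually_ne (by rw [R00]; exact hac)
  have evR1 : ∀ᶠ t in 𝓝 (0 : ℂ), R1 t ≠ 0 :=
    aR1.continuousAt.eventually_ne (by rw [R10]; exact mul_ne_zero hac hdc)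
  have evden : ∀ᶠ t in 𝓝 (0 : ℂ), t ^ (2 * d) + R0 t ^ 2 ≠ 0 :=
    aden.continuousAt.eventually_ne hden0
  have eves : ∀ᶠ t in 𝓝 (0 : ℂ), R1 t * (e t + s t) ≠ 0 :=
    (aR1.mul (ae.add as')).continuousAt.eventually_ne hes0
  have evφ : ∀ᶠ t in 𝓝 (0 : ℂ), φ t ≠ 0 := aφ.continuousAt.eventually_ne φ0'
  have ev1s : ∀ᶠ t in 𝓝 (0 : ℂ), 1 + s t ≠ 0 :=
    (analyticAt_const.add as').continuousAt.eventually_ne (by
      show (1 : ℂ) + s 0 ≠ 0
      rw [s0]; norm_num)
  have evslit : ∀ᶠ t in 𝓝 (0 : ℂ), e t ∈ Complex.slitPlane :=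
    ae.continuousAt.eventually_mem (Complex.isOpen_slitPlane.mem_nhds (by
      rw [e0]; exact Complex.one_mem_slitPlane))
  have hconj : ∀ᶠ t in 𝓝 (0 : ℂ), j ((starRingEnd ℂ) t) = (starRingEnd ℂ) (j t) := by
    filter_upwards [evslit] with t ht
    have c0 : R0 ((starRingEnd ℂ) t) = (starRingEnd ℂ) (R0 t) := Polynomial.aeval_conj _ _
    have c1 : R1 ((starRingEnd ℂ) t) = (starRingEnd ℂ) (R1 t) := Polynomial.aeval_conj _ _
    have ce : e ((starRingEnd ℂ) t) = (starRingEnd ℂ) (e t) := by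
      show R0 ((starRingEnd ℂ) t) ^ 2 / (((starRingEnd ℂ) t) ^ (2 * d) +
        R0 ((starRingEnd ℂ) t) ^ 2) = (starRingEnd ℂ) (R0 t ^ 2 / (t ^ (2 * d) + R0 t ^ 2))
      rw [c0]; simp
    have cs : s ((starRingEnd ℂ) t) = (starRingEnd ℂ) (s t) := by
      show Complex.exp (Complex.log (e ((starRingEnd ℂ) t)) / 2) =
        (starRingEnd ℂ) (Complex.exp (Complex.log (e t) / 2))
      rw [ce, Complex.log_conj _ (Complex.slitPlane_arg_ne_pi ht), ← Complex.exp_conj, map_div₀,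
        map_ofNat]
    have cφ : φ ((starRingEnd ℂ) t) = (starRingEnd ℂ) (φ t) := by
      show 1 + R0 ((starRingEnd ℂ) t) / (R1 ((starRingEnd ℂ) t) *
        (e ((starRingEnd ℂ) t) + s ((starRingEnd ℂ) t))) =
        (starRingEnd ℂ) (1 + R0 t / (R1 t * (e t + s t)))
      rw [c0, c1, ce, cs]; simp
    show (starRingEnd ℂ) t * (φ ((starRingEnd ℂ) t))⁻¹ = (starRingEnd ℂ) (t * (φ t)⁻¹)
    rw [cφ]; simp
  have hmain := inf_im j _ (inv_pos.mpr hcpos) hj hconj
  have hall := hmain.and (evR0.and (evR1.and (evden.and (eves.and (evφ.and ev1s)))))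
  rw [Metric.eventually_nhds_iff] at hall
  obtain ⟨δ, hδ, hall⟩ := hall
  refine ⟨δ⁻¹ + 1, ?_⟩
  intro x hxB α hα heq hOm
  have hxpos : 0 < ‖x‖ := lt_of_lt_of_le (by positivity) hxB
  have hx0 : x ≠ 0 := norm_pos_iff.mp hxpos
  have htδ : dist x⁻¹ 0 < δ := by
    rw [dist_zero_right, norm_inv]
    rw [inv_lt_comm₀ hxpos hδ]
    linarith
  obtain ⟨h1, h2, h3, h4, h5, h6, h7⟩ := hall htδ
  obtain ⟨t, ht⟩ : ∃ t, x⁻¹ = t := ⟨_, rfl⟩
  rw [ht] at h1 h2 h3 h4 h5 h6 h7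
  have hxt : x * t = 1 := by rw [← ht]; exact mul_inv_cancel₀ hx0
  have ht0 : t ≠ 0 := by rw [← ht]; exact inv_ne_zero hx0
  have hQ : Q q x = R0 t * x ^ d := by
    show (q.map (algebraMap ℝ ℂ)).eval x = aeval t (reverse q) * x ^ d
    rw [eval_map_algebraMap, inf_rev q x hx0, ht, hd]
  have hQ1 : Q1 q x = R1 t * x ^ (d - 1) := by
    show (derivative (q.map (algebraMap ℝ ℂ))).eval x =
      aeval t (reverse (derivative q)) * x ^ (d - 1)
    rw [derivative_map, eval_map_algebraMap, inf_rev _ x hx0, ht, hd1]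
  have hxd : x ^ d = x ^ (d - 1) * x := by
    rw [← pow_succ]; congr 1; omega
  have hx2 : x ^ (2 * d) * t ^ (2 * d) = 1 := by rw [← mul_pow, hxt, one_pow]
  have hP : PP q x = x ^ (2 * d) * (t ^ (2 * d) + R0 t ^ 2) := by
    show 1 + Q q x ^ 2 = _
    rw [hQ, mul_add, hx2]
    ring
  have hP0 : PP q x ≠ 0 := by rw [hP]; exact mul_ne_zero (pow_ne_zero _ hx0) h4
  have hQ0 : Q q x ≠ 0 := by rw [hQ]; exact mul_ne_zero h2 (pow_ne_zero _ hx0)
  have hQ10 : Q1 q x ≠ 0 := by rw [hQ1]; exact mul_ne_zero h3 (pow_ne_zero _ hx0)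
  have het : e t = Q q x ^ 2 / PP q x := by
    show R0 t ^ 2 / (t ^ (2 * d) + R0 t ^ 2) = _
    rw [hP, hQ, div_eq_div_iff h4 (mul_ne_zero (pow_ne_zero _ hx0) h4)]
    ring
  have het0 : e t ≠ 0 := by
    rw [het]; exact div_ne_zero (pow_ne_zero 2 hQ0) hP0
  have hs2 : s t ^ 2 = e t := by
    show Complex.exp (Complex.log (e t) / 2) ^ 2 = e t
    rw [← Complex.exp_nat_mul]
    have : ((2 : ℕ) : ℂ) * (Complex.log (e t) / 2) = Complex.log (e t) := by push_cast; ring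
    rw [this, Complex.exp_log het0]
  have hs0 : s t ≠ 0 := Complex.exp_ne_zero _
  have hαc : (α : ℂ) ≠ 0 := by exact_mod_cast hα.ne'
  -- S = α Q P / Q1
  obtain ⟨S, hS⟩ : ∃ S, S = α * Q q x * PP q x / Q1 q x := ⟨_, rfl⟩
  have hS2 : S ^ 2 = e t := by
    rw [hS, het, div_pow, heq]
    field_simp
  have hSs : (S - s t) * (S + s t) = 0 := by
    have : (S - s t) * (S + s t) = S ^ 2 - s t ^ 2 := by ring
    rw [this, hS2, hs2, sub_self]
  have hFS : FF q x = x - S / α := by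
    show x - Q q x * PP q x / Q1 q x = x - S / α
    rw [hS]; field_simp
  have h1e : (1 - s t) * (1 + s t) * PP q x = 1 := by
    have : (1 - s t) * (1 + s t) = 1 - s t ^ 2 := by ring
    rw [this, hs2, het]
    have h8 : PP q x = 1 + Q q x ^ 2 := rfl
    field_simp
    rw [h8]; ring
  have hes : e t + s t = s t * (1 + s t) := by rw [← hs2]; ring
  have hSQ : S * Q1 q x = α * Q q x * PP q x := by rw [hS]; field_simp
  -- the two cases
  have hkey : ∃ r : ℝ, FF q x = x * φ t - r := by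
    have hφ : x * φ t = x + Q q x / (Q1 q x * (e t + s t)) := by
      show x * (1 + R0 t / (R1 t * (e t + s t))) = _
      rw [hQ, hQ1, hxd]
      have hxd0 : x ^ (d - 1) ≠ 0 := pow_ne_zero _ hx0
      have h9 : e t + s t ≠ 0 := right_ne_zero_of_mul h5
      field_simp
    rcases mul_eq_zero.mp hSs with h8 | h8
    · refine ⟨1 / α, ?_⟩
      have hSs' : S = s t := by linear_combination h8
      rw [hφ, hFS, hes, hSs']
      rw [hSs'] at hSQ
      have h9 : Q q x / (Q1 q x * (s t * (1 + s t))) = (1 - s t) / α := by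
        rw [div_eq_div_iff (mul_ne_zero hQ10 (mul_ne_zero hs0 h7)) hαc]
        have : (1 - s t) * (Q1 q x * (s t * (1 + s t))) =
          (1 - s t) * (1 + s t) * (s t * Q1 q x) := by ring
        rw [this, hSQ]
        linear_combination (-(α : ℂ) * Q q x) * h1e
      rw [h9]; push_cast; ring
    · refine ⟨-(1 / α), ?_⟩
      have hSs' : S = - s t := by linear_combination h8
      rw [hφ, hFS, hes, hSs']
      rw [hSs'] at hSQ
      have h9 : Q q x / (Q1 q x * (s t * (1 + s t))) = -((1 - s t) / α) := by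
        rw [← neg_div, div_eq_div_iff (mul_ne_zero hQ10 (mul_ne_zero hs0 h7)) hαc]
        have : -(1 - s t) * (Q1 q x * (s t * (1 + s t))) =
          (1 - s t) * (1 + s t) * (-s t * Q1 q x) := by ring
        rw [this, hSQ]
        linear_combination (-(α : ℂ) * Q q x) * h1e
      rw [h9]; push_cast; ring
  obtain ⟨r, hr⟩ := hkey
  have hFim : (FF q x).im = (x * φ t).im := by
    rw [hr]; simp
  have hjx : x * φ t = (j t)⁻¹ := by
    show x * φ t = (t * (φ t)⁻¹)⁻¹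
    rw [mul_inv, inv_inv, ← ht, inv_inv]
  have hOm' : x.im * (FF q x).im < 0 := hOm
  rw [hFim, hjx, Complex.inv_im] at hOm'
  have hxim : x.im = -t.im / Complex.normSq t := by
    have : x = t⁻¹ := by rw [← ht, inv_inv]
    rw [this, Complex.inv_im]
  rw [hxim] at hOm'
  have h10 : -t.im / Complex.normSq t * (-(j t).im / Complex.normSq (j t)) =
      (t.im * (j t).im) / (Complex.normSq t * Complex.normSq (j t)) := by
    rw [div_mul_div_comm]; ring
  rw [h10] at hOm'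
  have h11 : 0 ≤ (t.im * (j t).im) / (Complex.normSq t * Complex.normSq (j t)) :=
    div_nonneg h1 (mul_nonneg (Complex.normSq_nonneg _) (Complex.normSq_nonneg _))
  linarith

end MP_4bcb19_an
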