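import Pool.Agent.Lib.MP_4bcb19_an.Branch

/-! # Behaviour of the roots near a limit root -/

open Polynomial Filter Topology

namespace MP_4bcb19_an

noncomputable section

theorem not_mem_Om_of_im (q : ℝ[X]) {x : ℂ} (h : x.im = 0) : x ∉ Om q := by
  simp [Om, h]

theorem not_mem_Om_of_Q1 (q : ℝ[X]) {x : ℂ} (h : Q1 q x = 0) : x ∉ Om q := by
  simp only [Om, FF, h, Set.mem_setOf_eq, div_zero, sub_zero, not_lt]
  exact mul_self_nonneg _

theorem PP_real_ne_zero (q : ℝ[X]) {x : ℂ} (h : x.im = 0) : PP q x ≠ 0 := by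
  have hyr : ((x.re : ℝ) : ℂ) = x := by apply Complex.ext <;> simp [h]
  rw [← hyr, PP_ofReal]
  have : (0 : ℝ) < 1 + q.eval x.re ^ 2 := by positivity
  exact_mod_cast this.ne'

theorem FF_real (q : ℝ[X]) {x : ℂ} (h : x.im = 0) : (FF q x).im = 0 := by
  have hyr : ((x.re : ℝ) : ℂ) = x := by apply Complex.ext <;> simp [h]
  rw [← hyr, FF, PP_ofReal, Q_ofReal, Q1_ofReal, ← Complex.ofReal_mul, ← Complex.ofReal_div,
    ← Complex.ofReal_sub, Complex.ofReal_im]

theorem FF_continuousAt (q : ℝ[X]) {x : ℂ} (h : Q1 q x ≠ 0) : ContinuousAt (FF q) x := by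
  have h1 := (Q_analyticAt q x).continuousAt
  have h2 := (PP_analyticAt q x).continuousAt
  have h3 := (Q1_analyticAt q x).continuousAt
  exact continuousAt_id.sub ((h1.mul h2).div h3 h)

theorem Om_nhds (q : ℝ[X]) {y : ℂ} (h : y ∈ Om q) : ∀ᶠ x in 𝓝 y, x ∈ Om q := by
  have hQ : Q1 q y ≠ 0 := fun h1 => not_mem_Om_of_Q1 q h1 h
  have h1 : ContinuousAt (fun x : ℂ => x.im * (FF q x).im) y :=
    Complex.continuous_im.continuousAt.mul
      (Complex.continuous_im.continuousAt.comp (FF_continuousAt q hQ))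
  exact h1.eventually (gt_mem_nhds h)

/-- near a common zero of `q'` and `1 + q ^ 2`. -/
theorem common_zero (q : ℝ[X]) (hq : 1 ≤ q.natDegree) {y : ℂ} (hP : PP q y = 0)
    (hQ1 : Q1 q y = 0) : ∀ᶠ x in 𝓝 y, x ∉ Om q := by
  have hyim : y.im ≠ 0 := fun h => PP_real_ne_zero q h hP
  have hne : ¬ ∀ᶠ z in 𝓝 y, PP q z = 0 := by
    intro h
    have h2 := infinite_of_mem_nhds y h
    have h3 : (1 + qc q ^ 2) = 0 := by
      apply Polynomial.eq_zero_of_infinite_isRoot
      refine h2.mono ?_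
      intro x hx
      have hx' : PP q x = 0 := hx
      simpa [PP, Q] using hx'
    have h4 := natDegree_one_add_sq q hq
    rw [h3] at h4
    simp at h4
    omega
  obtain ⟨n, ρ, -, -, hρ0, hρa, -, hρ⟩ := newton (PP_analyticAt q y) hP hne
  have h1 : ContinuousAt (fun x : ℂ => x.im * (x - 2 * Q q x ^ 2 * ρ x).im) y := by
    have h2 := (Q_analyticAt q y).continuousAt
    have h3 := hρa.continuousAt
    exact Complex.continuous_im.continuousAt.mul
      (Complex.continuous_im.continuousAt.comp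
        (continuousAt_id.sub ((continuousAt_const.mul (h2.pow 2)).mul h3)))
  have h2 : 0 < y.im * (y - 2 * Q q y ^ 2 * ρ y).im := by
    rw [hρ0]; simp only [mul_zero, sub_zero]; exact mul_self_pos.2 hyim
  have h3 : ∀ᶠ x in 𝓝 y, 0 < x.im * (x - 2 * Q q x ^ 2 * ρ x).im := h1.eventually (lt_mem_nhds h2)
  filter_upwards [h3, hρ] with x hx1 hx2
  by_cases h : Q1 q x = 0
  · exact not_mem_Om_of_Q1 q h
  · rw [(PP_hasDerivAt q x).deriv] at hx2
    have h5 : FF q x = x - 2 * Q q x ^ 2 * ρ x := by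
      rw [FF, hx2]; field_simp
    simp only [Om, Set.mem_setOf_eq, h5, not_lt]
    exact hx1.le

theorem alpha_sq_ne {α : ℝ} (h : 0 < α) : (α : ℂ) ^ 2 ≠ 0 := by
  have : (α : ℂ) ≠ 0 := by exact_mod_cast h.ne'
  exact pow_ne_zero 2 this

/-- Roots outside `Ω` stay outside when `α` increases. -/
theorem stay_out (q : ℝ[X]) (hq : 1 ≤ q.natDegree) {α₀ : ℝ} (h0 : 0 < α₀) {y : ℂ}
    (hy : Q1 q y ^ 2 = (α₀ : ℂ) ^ 2 * PP q y ^ 3) (hyO : y ∉ Om q) :
    ∀ᶠ x in 𝓝 y, ∀ α : ℝ, α₀ < α → Q1 q x ^ 2 = (α : ℂ) ^ 2 * PP q x ^ 3 → x ∉ Om q := by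
  by_cases hQ1 : Q1 q y = 0
  · have hP : PP q y = 0 := by
      rw [hQ1] at hy
      have h1 : (α₀ : ℂ) ^ 2 * PP q y ^ 3 = 0 := by rw [← hy]; simp
      rcases mul_eq_zero.1 h1 with h2 | h2
      · exact absurd h2 (alpha_sq_ne h0)
      · exact pow_eq_zero_iff (by norm_num) |>.1 h2
    exact (common_zero q hq hP hQ1).mono fun x hx α _ _ => hx
  · have hP : PP q y ≠ 0 := by
      intro h
      rw [h] at hy
      exact hQ1 (pow_eq_zero_iff (two_ne_zero) |>.1 (by rw [hy]; simp))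
    by_cases hF : (FF q y).im = 0
    · have h1 := lemU q hq y hP α₀ h0.le hy (Or.inl ⟨h0, hF⟩)
      filter_upwards [h1] with x hx α hα hxr
      by_cases hxi : x.im = 0
      · exact not_mem_Om_of_im q hxi
      · obtain ⟨c, hc, h2⟩ := hx α (h0.trans hα) hxr hxi
        simp only [Om, Set.mem_setOf_eq, h2, not_lt]
        have h3 : α₀ / α < 1 := (div_lt_one (h0.trans hα)).2 hα
        exact (mul_pos (by linarith) hc).le
    · have hyi : y.im ≠ 0 := fun h => hF (FF_real q h)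
      have h1 : ContinuousAt (fun x : ℂ => x.im * (FF q x).im) y :=
        Complex.continuous_im.continuousAt.mul
          (Complex.continuous_im.continuousAt.comp (FF_continuousAt q hQ1))
      have h2 : 0 < y.im * (FF q y).im := by
        have h3 : ¬ y.im * (FF q y).im < 0 := hyO
        exact lt_of_le_of_ne (not_lt.1 h3) (mul_ne_zero hyi hF).symm
      have h3 : ∀ᶠ x in 𝓝 y, 0 < x.im * (FF q x).im := h1.eventually (lt_mem_nhds h2)
      exact h3.mono fun x hx α _ _ h => (not_lt.2 hx.le) h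

/-- Nonreal roots near a real root are in `Ω` when `α` decreases. -/
theorem come_in (q : ℝ[X]) (hq : 1 ≤ q.natDegree) {α₀ : ℝ} (h0 : 0 < α₀) {y : ℂ}
    (hy : Q1 q y ^ 2 = (α₀ : ℂ) ^ 2 * PP q y ^ 3) (hyi : y.im = 0) :
    ∀ᶠ x in 𝓝 y, ∀ α : ℝ, 0 < α → α < α₀ → Q1 q x ^ 2 = (α : ℂ) ^ 2 * PP q x ^ 3 →
      x.im ≠ 0 → x ∈ Om q := by
  have h1 := lemU q hq y (PP_real_ne_zero q hyi) α₀ h0.le hy (Or.inl ⟨h0, FF_real q hyi⟩)
  filter_upwards [h1] with x hx α hα1 hα2 hxr hxi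
  obtain ⟨c, hc, h2⟩ := hx α hα1 hxr hxi
  simp only [Om, Set.mem_setOf_eq, h2]
  have h3 : 1 < α₀ / α := (one_lt_div hα1).2 hα2
  exact mul_neg_of_neg_of_pos (by linarith) hc

/-- Complexified numerator. -/
theorem NN_map (q : ℝ[X]) : (NN q).map (algebraMap ℝ ℂ) =
    derivative (derivative (qc q)) * (1 + qc q ^ 2) - 3 * qc q * derivative (qc q) ^ 2 := by
  simp only [NN, Polynomial.map_sub, Polynomial.map_mul, Polynomial.map_add, Polynomial.map_pow,
    Polynomial.map_one, Polynomial.derivative_map]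
  congr 3
  exact Polynomial.map_ofNat _ _

theorem G_identity (q : ℝ[X]) (α : ℝ) :
    (1 + qc q ^ 2) * derivative (G q α) =
      2 * derivative (qc q) * (NN q).map (algebraMap ℝ ℂ) +
        6 * qc q * derivative (qc q) * G q α := by
  rw [NN_map]
  simp only [G, derivative_sub, derivative_mul, derivative_pow, derivative_add, derivative_one,
    derivative_C, zero_mul, zero_add, Nat.cast_ofNat, map_ofNat]
  ring

end

end MP_4bcb19_an
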