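import Pool.Agent.Lib.MP_4bcb19_an.Defs

/-! # Local analysis of the Newton map -/

open Polynomial Filter Topology

namespace MP_4bcb19_an

noncomputable section

/-- `f / f'` near a zero of `f`. -/
theorem newton {f : ℂ → ℂ} {y : ℂ} (hf : AnalyticAt ℂ f y) (h0 : f y = 0)
    (hne : ¬ ∀ᶠ z in 𝓝 y, f z = 0) :
    ∃ (n : ℕ) (ρ : ℂ → ℂ), 1 ≤ n ∧ (deriv f y = 0 → 2 ≤ n) ∧ ρ y = 0 ∧ AnalyticAt ℂ ρ y ∧
      HasDerivAt ρ ((n : ℂ)⁻¹) y ∧ ∀ᶠ x in 𝓝 y, f x = ρ x * deriv f x := by
  obtain ⟨n, u, hu, hu0, hfu⟩ := (hf.exists_eventuallyEq_pow_smul_nonzero_iff).2 hne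
  have hn : 1 ≤ n := by
    rcases Nat.eq_zero_or_pos n with rfl | h
    · exfalso
      have := hfu.self_of_nhds
      simp [h0] at this
      exact hu0 this.symm
    · exact h
  -- derivative formula
  have hder : ∀ᶠ x in 𝓝 y, deriv f x =
      (x - y) ^ (n - 1) * ((n : ℂ) * u x + (x - y) * deriv u x) := by
    have h1 : ∀ᶠ x in 𝓝 y, AnalyticAt ℂ u x := hu.eventually_analyticAt
    have h2 := hfu.eventually_nhds
    filter_upwards [h1, h2] with x hx1 hx2
    have h3 : deriv f x = deriv (fun z => (z - y) ^ n • u z) x := Filter.EventuallyEq.deriv_eq hx2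
    rw [h3]
    have h4 : HasDerivAt (fun z : ℂ => (z - y) ^ n • u z)
        ((n : ℂ) * (x - y) ^ (n - 1) * 1 * u x + (x - y) ^ n * deriv u x) x := by
      have ha : HasDerivAt (fun z : ℂ => (z - y) ^ n) ((n : ℂ) * (x - y) ^ (n - 1) * 1) x :=
        ((hasDerivAt_id x).sub_const y).pow n
      exact ha.mul hx1.differentiableAt.hasDerivAt
    rw [h4.deriv]
    obtain ⟨m, rfl⟩ : ∃ m, n = m + 1 := ⟨n - 1, by omega⟩
    simp only [Nat.add_sub_cancel, pow_succ]
    ring
  set v : ℂ → ℂ := fun x => (n : ℂ) * u x + (x - y) * deriv u x with hv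
  have hva : AnalyticAt ℂ v y := by
    have := hu.deriv
    fun_prop
  have hvy : v y = n * u y := by simp [hv]
  have hnC : (n : ℂ) ≠ 0 := by exact_mod_cast (by omega : n ≠ 0)
  have hvy0 : v y ≠ 0 := by rw [hvy]; exact mul_ne_zero hnC hu0
  have hv0 : ∀ᶠ x in 𝓝 y, v x ≠ 0 := hva.continuousAt.eventually_ne hvy0
  refine ⟨n, fun x => (x - y) * (u x / v x), hn, ?_, by simp, ?_, ?_, ?_⟩
  · intro hd
    by_contra hcon
    have hn1 : n = 1 := by omega
    have := hder.self_of_nhds
    rw [hd, hn1] at this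
    simp at this
    rw [hn1] at hvy
    exact hu0 (by simpa using this.symm)
  · have h1 : AnalyticAt ℂ (fun x => u x / v x) y := hu.div hva hvy0
    fun_prop
  · have h1 : AnalyticAt ℂ (fun x => u x / v x) y := hu.div hva hvy0
    have h2 : HasDerivAt (fun x : ℂ => x - y) 1 y := (hasDerivAt_id y).sub_const y
    have h3 := h2.mul h1.differentiableAt.hasDerivAt
    have h4 : (1 : ℂ) * (u y / v y) + (y - y) * deriv (fun x => u x / v x) y = (n : ℂ)⁻¹ := by
      rw [hvy]; field_simp; simp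
    rw [h4] at h3
    exact h3
  · filter_upwards [hder, hfu, hv0] with x h1 h2 h3
    rw [h1, h2]
    obtain ⟨m, rfl⟩ : ∃ m, n = m + 1 := ⟨n - 1, by omega⟩
    simp only [Nat.add_sub_cancel, pow_succ, smul_eq_mul]
    have h3' : v x = ((m + 1 : ℕ) : ℂ) * u x + (x - y) * deriv u x := rfl
    rw [← h3']
    field_simp

/-- Sign of the imaginary part of a function which fixes `y` and has positive derivative there. -/
theorem im_sign {g : ℂ → ℂ} {y : ℂ} {c : ℝ} (hc : 0 < c) (hg : HasStrictDerivAt g (c : ℂ) y)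
    (hgy : g y = y) (hreal : y.im = 0 → ∀ᶠ t : ℝ in 𝓝 y.re, (g t).im = 0) :
    ∀ᶠ x in 𝓝 y, x.im ≠ 0 → 0 < x.im * (g x).im := by
  by_cases hy : y.im = 0
  · have hr := hreal hy
    have hyr : ((y.re : ℝ) : ℂ) = y := by
      apply Complex.ext <;> simp [hy]
    -- strict derivative on the pair (x, re x)
    have h1 := hg.isLittleO.def (half_pos hc)
    have hcont : Tendsto (fun x : ℂ => (x, ((x.re : ℝ) : ℂ))) (𝓝 y) (𝓝 (y, y)) := by
      have : Continuous (fun x : ℂ => (x, ((x.re : ℝ) : ℂ))) := by fun_prop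
      have h2 := this.tendsto y
      simpa [hyr] using h2
    have h2 := hcont.eventually h1
    have h3 : Tendsto (fun x : ℂ => x.re) (𝓝 y) (𝓝 y.re) := Complex.continuous_re.tendsto y
    have h4 := h3.eventually hr
    filter_upwards [h2, h4] with x hx1 hx2 hx3
    have h5 : x - ((x.re : ℝ) : ℂ) = (x.im : ℂ) * Complex.I := by
      apply Complex.ext <;> simp
    rw [h5] at hx1
    have h6 : ‖(x.im : ℂ) * Complex.I‖ = |x.im| := by simp
    rw [h6] at hx1
    have h7 : |(g x - g x.re - (ContinuousLinearMap.toSpanSingleton ℂ (c : ℂ))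
        ((x.im : ℂ) * Complex.I)).im| ≤ c / 2 * |x.im| := (Complex.abs_im_le_norm _).trans hx1
    have h8 : (g x - g x.re - (ContinuousLinearMap.toSpanSingleton ℂ (c : ℂ))
        ((x.im : ℂ) * Complex.I)).im = (g x).im - c * x.im := by
      simp [hx2]
      ring
    rw [h8] at h7
    rw [abs_le] at h7
    rcases lt_or_gt_of_ne hx3 with h | h
    · rw [abs_of_neg h] at h7
      apply mul_pos_of_neg_of_neg h
      nlinarith [mul_neg_of_pos_of_neg hc h]
    · rw [abs_of_pos h] at h7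
      apply mul_pos h
      nlinarith [mul_pos hc h]
  · have h1 : ContinuousAt (fun x : ℂ => x.im * (g x).im) y := by
      have := hg.hasDerivAt.continuousAt
      exact Complex.continuous_im.continuousAt.mul (Complex.continuous_im.continuousAt.comp this)
    have h2 : 0 < y.im * (g y).im := by rw [hgy]; exact mul_self_pos.2 hy
    have h3 : ∀ᶠ x in 𝓝 y, 0 < x.im * (g x).im := h1.eventually (lt_mem_nhds h2)
    exact h3.mono fun x hx _ => hx

theorem legendre {S : ℂ → ℂ} {y : ℂ} (hS : AnalyticAt ℂ S y)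
    (hne : ¬ ∀ᶠ x in 𝓝 y, deriv S x = deriv S y)
    (hreal : y.im = 0 → ∀ᶠ t : ℝ in 𝓝 y.re, (S t).im = 0 ∧ (deriv S t).im = 0) :
    ∃ g : ℂ → ℂ, (∀ᶠ x in 𝓝 y, x.im ≠ 0 → 0 < x.im * (g x).im) ∧
      ∀ᶠ x in 𝓝 y, deriv S x * x - S x =
        (deriv S y * y - S y) + (deriv S x - deriv S y) * g x := by
  set κ₀ := deriv S y with hκ₀
  set f : ℂ → ℂ := fun x => S x - S y - κ₀ * (x - y) with hf
  have hfa : AnalyticAt ℂ f y := by fun_prop
  have hf0 : f y = 0 := by simp [hf]
  have hfd : ∀ᶠ x in 𝓝 y, deriv f x = deriv S x - κ₀ := by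
    filter_upwards [hS.eventually_analyticAt] with x hx
    have h1 : HasDerivAt f (deriv S x - 0 - κ₀ * 1) x := by
      have h2 : HasDerivAt (fun x : ℂ => κ₀ * (x - y)) (κ₀ * 1) x :=
        ((hasDerivAt_id x).sub_const y).const_mul κ₀
      exact (hx.differentiableAt.hasDerivAt.sub (hasDerivAt_const x (S y))).sub h2
    rw [h1.deriv]; ring
  have hfne : ¬ ∀ᶠ z in 𝓝 y, f z = 0 := by
    intro h
    apply hne
    filter_upwards [hfd, h.eventually_nhds] with x hx1 hx2
    have h3 : deriv f x = deriv (fun _ : ℂ => (0 : ℂ)) x := Filter.EventuallyEq.deriv_eq hx2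
    rw [hx1] at h3
    simpa [sub_eq_zero] using h3
  obtain ⟨n, ρ, hn1, hn2, hρ0, hρa, hρd, hρ⟩ := newton hfa hf0 hfne
  have hn : 2 ≤ n := hn2 (by rw [hfd.self_of_nhds]; simp [hκ₀])
  have hid : ∀ᶠ x in 𝓝 y, S x - S y - κ₀ * (x - y) = ρ x * (deriv S x - κ₀) := by
    filter_upwards [hρ, hfd] with x h1 h2
    rw [h2] at h1
    exact h1
  refine ⟨fun x => x - ρ x, ?_, ?_⟩
  · have hc : (0 : ℝ) < 1 - (n : ℝ)⁻¹ := by
      have : (n : ℝ)⁻¹ < 1 := inv_lt_one_of_one_lt₀ (by exact_mod_cast (by omega : 1 < n))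
      linarith
    apply im_sign hc
    · have hg : AnalyticAt ℂ (fun x => x - ρ x) y := by fun_prop
      have h1 : HasDerivAt (fun x => x - ρ x) (1 - (n : ℂ)⁻¹) y := (hasDerivAt_id y).sub hρd
      have h2 := hg.hasStrictDerivAt
      rw [h1.deriv] at h2
      simpa using h2
    · simp [hρ0]
    · intro hy
      have hyr : ((y.re : ℝ) : ℂ) = y := by apply Complex.ext <;> simp [hy]
      have hcont : Tendsto (fun t : ℝ => (t : ℂ)) (𝓝 y.re) (𝓝 y) := by
        have := Complex.continuous_ofReal.tendsto y.re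
        rwa [hyr] at this
      have hda : AnalyticAt ℂ (fun x => deriv S x - κ₀) y := by
        have := hS.deriv
        fun_prop
      have hiso : ∀ᶠ x in 𝓝[≠] y, deriv S x - κ₀ ≠ 0 := by
        rcases hda.eventually_eq_zero_or_eventually_ne_zero with h | h
        · exfalso
          apply hne
          exact h.mono fun x hx => sub_eq_zero.1 hx
        · exact h
      rw [eventually_nhdsWithin_iff] at hiso
      have hr := hreal hy
      have hr0 := hr.self_of_nhds
      rw [hyr] at hr0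
      filter_upwards [hr, hcont.eventually hid, hcont.eventually hiso] with t h1 h2 h3
      by_cases ht : (t : ℂ) = y
      · rw [ht, hρ0]; simp [hy]
      · have h4 := h3 ht
        have h5 : ρ t = (S t - S y - κ₀ * (t - y)) / (deriv S t - κ₀) := by
          rw [h2]; field_simp
        have h6 : (deriv S t - κ₀).im = 0 := by simp [h1.2, hκ₀, hr0.2]
        have h7 : (S t - S y - κ₀ * (t - y)).im = 0 := by
          simp [h1.1, hr0.1, hκ₀, hr0.2, hy]
        have h8 : (ρ t).im = 0 := by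
          rw [h5, Complex.div_im, h6, h7]; simp
        simp [h8]
  · filter_upwards [hid] with x hx
    have : (deriv S x - κ₀) * (x - ρ x) = (deriv S x - κ₀) * x - ρ x * (deriv S x - κ₀) := by ring
    rw [this, ← hx]
    ring

end

end MP_4bcb19_an
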