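import Mathlib

open Filter Topology

namespace MP_4bcb19_an

/-- Job B (LocalCard). An analytic function vanishing to order `m ≥ 1` at `c` takes every value at
most `m` times near `c`. -/
theorem local_card_le {f u : ℂ → ℂ} {c : ℂ} {m : ℕ} (hm : 1 ≤ m) (hu : AnalyticAt ℂ u c)
    (hu0 : u c ≠ 0) (hf : ∀ᶠ x in 𝓝 c, f x = (x - c) ^ m * u x) :
    ∃ U ∈ 𝓝 c, ∀ v : ℂ, ∀ s : Finset ℂ, (∀ x ∈ s, x ∈ U ∧ f x = v) → s.card ≤ m := by
  classical
  set ψ : ℂ → ℂ := fun x => (x - c) * (u x / u c) ^ ((m : ℂ)⁻¹) with hψ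
  have hg : AnalyticAt ℂ (fun x => (u x / u c) ^ ((m : ℂ)⁻¹)) c := by
    apply AnalyticAt.cpow (hu.div analyticAt_const hu0) analyticAt_const
    show u c / u c ∈ Complex.slitPlane
    rw [div_self hu0]
    exact Complex.one_mem_slitPlane
  have hψa : AnalyticAt ℂ ψ c := (analyticAt_id.sub analyticAt_const).mul hg
  have hder : HasDerivAt ψ 1 c := by
    have h1 : HasDerivAt (fun x : ℂ => x - c) 1 c := (hasDerivAt_id c).sub_const c
    have h2 := h1.mul hg.differentiableAt.hasDerivAt
    have h3 : (1 : ℂ) * (u c / u c) ^ ((m : ℂ)⁻¹) +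
        (c - c) * deriv (fun x => (u x / u c) ^ ((m : ℂ)⁻¹)) c = 1 := by
      rw [div_self hu0, Complex.one_cpow, sub_self, zero_mul, add_zero, one_mul]
    rw [h3] at h2
    exact h2
  have hstrict : HasStrictDerivAt ψ 1 c := by
    have h := hψa.hasStrictDerivAt
    rw [hder.deriv] at h
    exact h
  have heq := hstrict.hasStrictFDerivAt_equiv (one_ne_zero)
  set e := heq.toOpenPartialHomeomorph ψ with he
  have hes : c ∈ e.source := heq.mem_toOpenPartialHomeomorph_source
  have hesn : e.source ∈ 𝓝 c := e.open_source.mem_nhds hes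
  have hinj : Set.InjOn ψ e.source := by
    have := e.injOn
    rwa [he, HasStrictFDerivAt.toOpenPartialHomeomorph_coe] at this
  refine ⟨e.source ∩ {x | f x = (x - c) ^ m * u x}, Filter.inter_mem hesn hf, ?_⟩
  intro v s hs
  have hpow : ∀ x ∈ s, ψ x ^ m = v / u c := by
    intro x hx
    obtain ⟨⟨_, h1⟩, h2⟩ := hs x hx
    rw [Set.mem_ofPred_eq] at h1
    rw [hψ]
    simp only
    rw [mul_pow, Complex.cpow_nat_inv_pow _ (by omega), ← h2, h1]
    ring
  have himg : s.image ψ ⊆ (Polynomial.nthRoots m (v / u c)).toFinset := by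
    intro y hy
    rw [Finset.mem_image] at hy
    obtain ⟨x, hx, rfl⟩ := hy
    rw [Multiset.mem_toFinset, Polynomial.mem_nthRoots (by omega)]
    exact hpow x hx
  calc s.card = (s.image ψ).card := by
        rw [Finset.card_image_of_injOn]
        intro x hx y hy hxy
        exact hinj (hs x hx).1.1 (hs y hy).1.1 hxy
    _ ≤ (Polynomial.nthRoots m (v / u c)).toFinset.card := Finset.card_le_card himg
    _ ≤ (Polynomial.nthRoots m (v / u c)).card := Multiset.toFinset_card_le _
    _ ≤ m := Polynomial.card_nthRoots _ _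

end MP_4bcb19_an
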