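import Pool.Agent.Lib.MP_4bcb19_an.Count
import Pool.Agent.Lib.MP_4bcb19_an.Infinity

/-! # Total count -/

open Polynomial Filter Topology

namespace MP_4bcb19_an

noncomputable section

theorem induction_ge (q : ℝ[X]) (hq : 1 ≤ q.natDegree) (Y : Finset ℝ)
    (α : ℝ) (hα : 0 < α) :
    ∑ y ∈ Y with α ^ 2 < hh q y, (((G q (√(hh q y))).roots.count (y : ℂ) : ℤ) - side q y) ≤
      cnt (· ∈ Om q) (G q α).roots := by
  classical
  set Φ : ℝ → ℤ := fun α => ∑ y ∈ Y with α ^ 2 < hh q y,
    (((G q (√(hh q y))).roots.count (y : ℂ) : ℤ) - side q y) with hΦ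
  by_contra hcon
  set B : Set ℝ := {a | 0 < a ∧ ¬ Φ a ≤ cnt (· ∈ Om q) (G q a).roots} with hB
  have hαB : α ∈ B := ⟨hα, hcon⟩
  -- bounded above
  obtain ⟨M, hM⟩ : ∃ M : ℝ, ∀ y ∈ Y, hh q y ≤ M := by
    obtain ⟨M, hM⟩ := (Y.image (hh q)).exists_le
    exact ⟨M, fun y hy => hM _ (Finset.mem_image_of_mem _ hy)⟩
  have hbdd : BddAbove B := by
    refine ⟨|M| + 1, fun a ha => ?_⟩
    by_contra h
    rw [not_le] at h
    apply ha.2
    have h1 : (Y.filter (fun y => a ^ 2 < hh q y)) = ∅ := by
      rw [Finset.filter_eq_empty_iff]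
      intro y hy h2
      have h3 := hM y hy
      have h4 := le_abs_self M
      have h5 := abs_nonneg M
      nlinarith
    simp only [hΦ]
    rw [h1, Finset.sum_empty]
    positivity
  set s := sSup B with hs
  have hs0 : 0 < s := hα.trans_le (le_csSup hbdd hαB)
  have habove : ∀ a, s < a → Φ a ≤ cnt (· ∈ Om q) (G q a).roots := by
    intro a ha
    by_contra h
    have : a ≤ s := le_csSup hbdd ⟨hs0.trans ha, h⟩
    linarith
  -- at `s`
  have hfilr : ∀ᶠ a in 𝓝[>] s, ∀ y ∈ Y, (s ^ 2 < hh q y → a ^ 2 < hh q y) := by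
    rw [Finset.eventually_all]
    intro y _
    by_cases h : s ^ 2 < hh q y
    · have h1 : ContinuousAt (fun a : ℝ => a ^ 2) s := by fun_prop
      have h2 : ∀ᶠ a in 𝓝 s, a ^ 2 < hh q y := h1.eventually (gt_mem_nhds h)
      exact (h2.filter_mono nhdsWithin_le_nhds).mono fun a ha _ => ha
    · exact Eventually.of_forall fun a ha => absurd ha h
  have hsgood : Φ s ≤ cnt (· ∈ Om q) (G q s).roots := by
    obtain ⟨a, h1, h2, h3⟩ := ((right_le q hq hs0).and (hfilr.and self_mem_nhdsWithin)).exists
    have h3' : s < a := h3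
    have h4 : Φ s = Φ a := by
      simp only [hΦ]
      congr 1
      apply Finset.filter_congr
      intro y hy
      refine ⟨h2 y hy, fun h => lt_of_le_of_lt ?_ h⟩
      exact pow_le_pow_left₀ hs0.le h3'.le 2
    rw [h4]
    exact (habove a h3').trans (by exact_mod_cast h1)
  -- left of `s`
  have hfill : ∀ᶠ a in 𝓝[<] s, ∀ y ∈ Y, (a ^ 2 < hh q y → s ^ 2 ≤ hh q y) := by
    rw [Finset.eventually_all]
    intro y _
    by_cases h : hh q y < s ^ 2
    · have h1 : ContinuousAt (fun a : ℝ => a ^ 2) s := by fun_prop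
      have h2 : ∀ᶠ a in 𝓝 s, hh q y < a ^ 2 := h1.eventually (lt_mem_nhds h)
      exact (h2.filter_mono nhdsWithin_le_nhds).mono fun a ha h3 => absurd h3 (not_lt.2 ha.le)
    · exact Eventually.of_forall fun a ha => not_lt.1 h
  have hleft := left_ge q hq hs0 (Y.filter (fun y => hh q y = s ^ 2)) (by
    intro y hy; exact (Finset.mem_filter.1 hy).2)
  have hpos : ∀ᶠ a : ℝ in 𝓝[<] s, 0 < a := (lt_mem_nhds hs0).filter_mono nhdsWithin_le_nhds
  have hgood : ∀ᶠ a in 𝓝[<] s, Φ a ≤ cnt (· ∈ Om q) (G q a).roots := by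
    filter_upwards [hleft, hfill, self_mem_nhdsWithin, hpos] with a h1 h2 h3 h4
    have h3' : a < s := h3
    refine le_trans ?_ h1
    have h5 : Φ a = Φ s + ∑ y ∈ Y with hh q y = s ^ 2,
        (((G q s).roots.count (y : ℂ) : ℤ) - side q y) := by
      have h6 : ∑ y ∈ Y with hh q y = s ^ 2,
          (((G q s).roots.count (y : ℂ) : ℤ) - side q y) =
          ∑ y ∈ Y with hh q y = s ^ 2,
          (((G q (√(hh q y))).roots.count (y : ℂ) : ℤ) - side q y) := by
        apply Finset.sum_congr rfl
        intro y hy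
        rw [(Finset.mem_filter.1 hy).2, Real.sqrt_sq hs0.le]
      rw [h6]
      simp only [hΦ]
      rw [← Finset.sum_union]
      · congr 1
        ext y
        simp only [Finset.mem_union, Finset.mem_filter]
        constructor
        · rintro ⟨h7, h8⟩
          rcases (h2 y h7 h8).lt_or_eq with h9 | h9
          · exact Or.inl ⟨h7, h9⟩
          · exact Or.inr ⟨h7, h9.symm⟩
        · rintro (⟨h7, h8⟩ | ⟨h7, h8⟩)
          · exact ⟨h7, (pow_lt_pow_left₀ h3' h4.le two_ne_zero).trans h8⟩
          · exact ⟨h7, by rw [h8]; exact pow_lt_pow_left₀ h3' h4.le two_ne_zero⟩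
      · rw [Finset.disjoint_left]
        intro y h7 h8
        rw [Finset.mem_filter] at h7 h8
        exact absurd h8.2 h7.2.ne'
    rw [h5]
    linarith
  rw [eventually_nhdsWithin_iff, Metric.eventually_nhds_iff] at hgood
  obtain ⟨δ, hδ, h1⟩ := hgood
  have hub : ∀ a ∈ B, a ≤ s - δ := by
    intro a ha
    by_contra h
    rw [not_le] at h
    have h2 : a ≤ s := le_csSup hbdd ha
    rcases h2.lt_or_eq with h3 | h3
    · apply ha.2
      apply h1 _ h3
      rw [Real.dist_eq, abs_lt]; constructor <;> linarith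
    · rw [h3] at ha
      exact ha.2 hsgood
  have := csSup_le ⟨α, hαB⟩ hub
  linarith

/-- Multiplicity at a point where `q'` does not vanish. -/
theorem mult_ge (q : ℝ[X]) (hq : 1 ≤ q.natDegree) {y α₀ : ℝ} (h : hh q y = α₀ ^ 2) :
    (NN q).roots.count y + 1 ≤ (G q α₀).roots.count (y : ℂ) := by
  have hroot : (G q α₀).IsRoot (y : ℂ) := by
    have := (root_real_iff q hq α₀ y).2 h
    exact (mem_roots (G_ne_zero q hq α₀)).1 this
  rw [count_roots, count_roots]
  set k := rootMultiplicity (y : ℂ) (G q α₀) with hk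
  set μ := rootMultiplicity y (NN q) with hμ
  by_contra hcon
  have hkμ : k ≤ μ := by omega
  have hk1 : 1 ≤ k := (rootMultiplicity_pos (G_ne_zero q hq α₀)).2 hroot
  have h1 : (X - C (y : ℂ)) ^ k ∣ (NN q).map (algebraMap ℝ ℂ) := by
    have h2 : (X - C y) ^ μ ∣ NN q := pow_rootMultiplicity_dvd _ _
    have h3 := Polynomial.map_dvd (algebraMap ℝ ℂ) h2
    have h4 : ((X - C y) ^ μ).map (algebraMap ℝ ℂ) = (X - C (y : ℂ)) ^ μ := by simp
    rw [h4] at h3
    exact (pow_dvd_pow _ hkμ).trans h3
  have h2 : (X - C (y : ℂ)) ^ k ∣ G q α₀ := pow_rootMultiplicity_dvd _ _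
  have h3 : (X - C (y : ℂ)) ^ k ∣ (1 + qc q ^ 2) * derivative (G q α₀) := by
    rw [G_identity]
    exact dvd_add (Dvd.dvd.mul_left h1 _) (Dvd.dvd.mul_left h2 _)
  have hPe : (1 + qc q ^ 2).eval (y : ℂ) ≠ 0 := by
    have h5 : (1 + qc q ^ 2).eval (y : ℂ) = PP q y := by simp [PP, Q]
    rw [h5]; exact PP_real_ne_zero q (by simp)
  have hcop : IsCoprime ((X - C (y : ℂ)) ^ k) (1 + qc q ^ 2) := by
    apply IsCoprime.pow_left
    rw [(Polynomial.irreducible_X_sub_C (y : ℂ)).coprime_iff_not_dvd, dvd_iff_isRoot]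
    exact hPe
  have h4 : (X - C (y : ℂ)) ^ k ∣ derivative (G q α₀) := hcop.dvd_of_dvd_mul_left h3
  have hd0 : derivative (G q α₀) ≠ 0 := by
    intro h5
    have h6 := Polynomial.derivative_eq_zero.1 h5
    obtain ⟨c, hc⟩ := Polynomial.natDegree_eq_zero.1 h6
    have h7 := hroot.eq_zero
    rw [← hc, eval_C] at h7
    exact G_ne_zero q hq α₀ (by rw [← hc, h7, map_zero])
  have h5 := (le_rootMultiplicity_iff hd0).2 h4
  rw [derivative_rootMultiplicity_of_root hroot] at h5
  omega

/-- Multiplicity at a real zero of `q'`. -/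
theorem mult_zero (q : ℝ[X]) (hq : 1 ≤ q.natDegree) {c : ℝ} (hc : (derivative q).eval c = 0) :
    (NN q).roots.count c + 1 ≤ (derivative q).roots.count c := by
  have hd0 : derivative q ≠ 0 := by
    intro h
    have := Polynomial.derivative_eq_zero.1 h
    omega
  have hdd0 : derivative (derivative q) ≠ 0 := by
    intro h5
    have h6 := Polynomial.derivative_eq_zero.1 h5
    obtain ⟨a, ha⟩ := Polynomial.natDegree_eq_zero.1 h6
    rw [← ha, eval_C] at hc
    exact hd0 (by rw [← ha, hc, map_zero])
  rw [count_roots, count_roots]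
  set m := rootMultiplicity c (derivative q) with hm
  set μ := rootMultiplicity c (NN q) with hμ
  by_contra hcon
  have hmμ : m ≤ μ := by omega
  have hm1 : 1 ≤ m := (rootMultiplicity_pos hd0).2 hc
  have h1 : (X - C c) ^ m ∣ NN q := (pow_dvd_pow _ hmμ).trans (pow_rootMultiplicity_dvd _ _)
  have h2 : (X - C c) ^ m ∣ derivative q := pow_rootMultiplicity_dvd _ _
  have h3 : (X - C c) ^ m ∣ (1 + q ^ 2) * derivative (derivative q) := by
    have h4 : (1 + q ^ 2) * derivative (derivative q) =
        NN q + (3 * q * derivative q) * derivative q := by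
      rw [NN]; ring
    rw [h4]
    exact dvd_add h1 (Dvd.dvd.mul_left h2 _)
  have hcop : IsCoprime ((X - C c) ^ m) (1 + q ^ 2) := by
    apply IsCoprime.pow_left
    rw [(Polynomial.irreducible_X_sub_C c).coprime_iff_not_dvd, dvd_iff_isRoot]
    have := one_add_sq_pos q c
    simpa using this.ne'
  have h4 : (X - C c) ^ m ∣ derivative (derivative q) := hcop.dvd_of_dvd_mul_left h3
  have h5 := (le_rootMultiplicity_iff hdd0).2 h4
  rw [derivative_rootMultiplicity_of_root hc] at h5
  omega

/-- Roots of the derivative: nonreal and real. -/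
theorem degree_count (q : ℝ[X]) (hq : 1 ≤ q.natDegree) :
    ∑ c ∈ (derivative q).roots.toFinset, (derivative q).roots.count c +
      ∑ c ∈ (derivative (qc q)).roots.toFinset,
        (if c.im = 0 then 0 else (derivative (qc q)).roots.count c) ≤ q.natDegree - 1 := by
  classical
  have hd0 : derivative q ≠ 0 := by
    intro h
    have := Polynomial.derivative_eq_zero.1 h
    omega
  have hmap : derivative (qc q) = (derivative q).map (algebraMap ℝ ℂ) := derivative_map _ _
  have hdc0 : derivative (qc q) ≠ 0 := derivative_qc_ne_zero q hq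
  have hcount : ∀ c : ℝ, (derivative q).roots.count c = (derivative (qc q)).roots.count (c : ℂ) := by
    intro c
    rw [count_roots, count_roots, hmap]
    exact Polynomial.eq_rootMultiplicity_map (algebraMap ℝ ℂ).injective c
  have h1 : ∑ c ∈ (derivative q).roots.toFinset, (derivative q).roots.count c ≤
      ∑ c ∈ (derivative (qc q)).roots.toFinset,
        (if c.im = 0 then (derivative (qc q)).roots.count c else 0) := by
    have h2 : ∑ c ∈ (derivative q).roots.toFinset, (derivative q).roots.count c =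
        ∑ c ∈ (derivative q).roots.toFinset.image (fun c : ℝ => (c : ℂ)),
          (if c.im = 0 then (derivative (qc q)).roots.count c else 0) := by
      rw [Finset.sum_image (fun a _ b _ h => by exact_mod_cast h)]
      apply Finset.sum_congr rfl
      intro c _
      simp [hcount]
    rw [h2]
    apply Finset.sum_le_sum_of_subset
    intro c hc
    rw [Finset.mem_image] at hc
    obtain ⟨a, ha, rfl⟩ := hc
    rw [Multiset.mem_toFinset, ← Multiset.count_pos] at ha ⊢
    rwa [← hcount]
  have h2 : ∑ c ∈ (derivative (qc q)).roots.toFinset,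
        (if c.im = 0 then (derivative (qc q)).roots.count c else 0) +
      ∑ c ∈ (derivative (qc q)).roots.toFinset,
        (if c.im = 0 then 0 else (derivative (qc q)).roots.count c) =
      Multiset.card (derivative (qc q)).roots := by
    rw [← Finset.sum_add_distrib, ← Multiset.toFinset_sum_count_eq]
    apply Finset.sum_congr rfl
    intro c _
    split_ifs <;> simp
  have h3 : Multiset.card (derivative (qc q)).roots ≤ q.natDegree - 1 := by
    refine (card_roots' _).trans ?_
    have := natDegree_derivative_le (qc q)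
    rwa [natDegree_qc] at this
  omega

/-- Main count: the numerator of `κ'` has at most `d` real zeros, with multiplicity. -/
theorem card_roots_NN (q : ℝ[X]) (hq : 1 ≤ q.natDegree) :
    Multiset.card (NN q).roots ≤ q.natDegree := by
  classical
  have hd0 : derivative q ≠ 0 := by
    intro h
    have := Polynomial.derivative_eq_zero.1 h
    omega
  set Y := (NN q).roots.toFinset.filter (fun y => (derivative q).eval y ≠ 0) with hY
  set Z := (derivative q).roots.toFinset with hZ
  have hYpos : ∀ y ∈ Y, 0 < hh q y := by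
    intro y hy
    have h1 := (Finset.mem_filter.1 hy).2
    have := one_add_sq_pos q y
    rw [hh]; positivity
  -- small α
  have hsm := small_alpha q hq (infinity q hq)
  have hsm2 : ∀ᶠ α : ℝ in 𝓝[>] 0, ∀ y ∈ Y, α ^ 2 < hh q y := by
    rw [Finset.eventually_all]
    intro y hy
    have h1 : ContinuousAt (fun a : ℝ => a ^ 2) 0 := by fun_prop
    have h2 : (fun a : ℝ => a ^ 2) 0 < hh q y := by simpa using hYpos y hy
    exact (h1.eventually (gt_mem_nhds h2)).filter_mono nhdsWithin_le_nhds
  obtain ⟨α, hα1, hα2, hα3⟩ := (hsm.and (hsm2.and self_mem_nhdsWithin)).exists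
  have hα : 0 < α := hα3
  have h1 := induction_ge q hq Y α hα
  rw [Finset.filter_true_of_mem hα2] at h1
  set ν := ∑ c ∈ (derivative (qc q)).roots.toFinset,
        (if c.im = 0 then 0 else (derivative (qc q)).roots.count c) with hν
  -- multiplicities on `Y`
  have h2 : ∑ y ∈ Y, (((NN q).roots.count y : ℤ) + 1 - side q y) ≤
      ∑ y ∈ Y, (((G q (√(hh q y))).roots.count (y : ℂ) : ℤ) - side q y) := by
    apply Finset.sum_le_sum
    intro y hy
    have h3 := mult_ge q hq (y := y) (α₀ := √(hh q y)) (by rw [Real.sq_sqrt (hYpos y hy).le])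
    have h4 : (((NN q).roots.count y + 1 : ℕ) : ℤ) ≤ ((G q (√(hh q y))).roots.count (y : ℂ) : ℤ) := by
      exact_mod_cast h3
    push_cast at h4
    linarith
  have h3 : ∑ y ∈ Y, (((NN q).roots.count y : ℤ) + 1 - side q y) ≤ (ν : ℤ) :=
    h2.trans (h1.trans (by exact_mod_cast hα1))
  -- sides
  have hdisj : Disjoint Y Z := by
    rw [Finset.disjoint_left]
    intro y hy hz
    rw [hZ, Multiset.mem_toFinset, mem_roots hd0] at hz
    exact (Finset.mem_filter.1 hy).2 hz
  have h4 : ∑ y ∈ Y ∪ Z, side q y ≤ (Y ∪ Z).card + 1 := by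
    apply sides (hh_hasDerivAt q)
    intro x hx h
    rw [Finset.mem_union, not_or] at hx
    have h5 := one_add_sq_pos q x
    rw [hh', div_eq_zero_iff] at h
    rcases h with h | h
    · rcases mul_eq_zero.1 h with h6 | h6
      · have h7 : (derivative q).eval x = 0 := by linarith
        apply hx.2
        rw [hZ, Multiset.mem_toFinset, mem_roots hd0]; exact h7
      · by_cases h7 : (derivative q).eval x = 0
        · apply hx.2
          rw [hZ, Multiset.mem_toFinset, mem_roots hd0]; exact h7
        · apply hx.1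
          rw [hY, Finset.mem_filter, Multiset.mem_toFinset, mem_roots (NN_ne_zero q hq)]
          exact ⟨h6, h7⟩
    · exact absurd h (by positivity)
  have h5 : ∑ y ∈ Y, side q y ≤ Y.card + Z.card + 1 := by
    rw [Finset.card_union_of_disjoint hdisj] at h4
    exact (Finset.sum_le_sum_of_subset Finset.subset_union_left).trans h4
  -- zeros of `q'`
  have h6 : ∑ c ∈ (NN q).roots.toFinset with ¬ (derivative q).eval c ≠ 0, (NN q).roots.count c +
      Z.card ≤ ∑ c ∈ Z, (derivative q).roots.count c := by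
    have h7 : ∑ c ∈ (NN q).roots.toFinset with ¬ (derivative q).eval c ≠ 0,
        (NN q).roots.count c ≤ ∑ c ∈ Z, (NN q).roots.count c := by
      apply Finset.sum_le_sum_of_subset
      intro c hc
      rw [Finset.mem_filter, not_not] at hc
      rw [hZ, Multiset.mem_toFinset, mem_roots hd0]; exact hc.2
    have h8 : ∑ c ∈ Z, ((NN q).roots.count c + 1) ≤ ∑ c ∈ Z, (derivative q).roots.count c := by
      apply Finset.sum_le_sum
      intro c hc
      rw [hZ, Multiset.mem_toFinset, mem_roots hd0] at hc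
      exact mult_zero q hq hc
    rw [Finset.sum_add_distrib, Finset.sum_const, smul_eq_mul, mul_one] at h8
    omega
  have h7 : Multiset.card (NN q).roots = ∑ y ∈ Y, (NN q).roots.count y +
      ∑ c ∈ (NN q).roots.toFinset with ¬ (derivative q).eval c ≠ 0, (NN q).roots.count c := by
    rw [← Multiset.toFinset_sum_count_eq]
    exact (Finset.sum_filter_add_sum_filter_not _ _ _).symm
  have h8 := degree_count q hq
  rw [← hZ, ← hν] at h8
  have h9 : (∑ y ∈ Y, ((NN q).roots.count y : ℤ)) + Y.card - ∑ y ∈ Y, (side q y : ℤ) ≤ ν := by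
    rw [Finset.sum_sub_distrib, Finset.sum_add_distrib] at h3
    simpa using h3
  have h10 : ((∑ y ∈ Y, side q y : ℕ) : ℤ) ≤ Y.card + Z.card + 1 := by exact_mod_cast h5
  have h11 : ((∑ y ∈ Y, (NN q).roots.count y : ℕ) : ℤ) = ∑ y ∈ Y, ((NN q).roots.count y : ℤ) := by
    push_cast; rfl
  push_cast at h10
  omega

end

end MP_4bcb19_an
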