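import Pool.Agent.Lib.MP_4bcb19_an.Jump
import Pool.Agent.Lib.MP_4bcb19_an.LocalCard
import Pool.Agent.Lib.MP_4bcb19_an.Curvature

/-! # The roots in `Ω` for small `α` -/

open Polynomial Filter Topology

namespace MP_4bcb19_an

noncomputable section

theorem G_ne_zero (q : ℝ[X]) (hq : 1 ≤ q.natDegree) (α : ℝ) : G q α ≠ 0 := GC_ne_zero q hq _

theorem mem_roots_G (q : ℝ[X]) (hq : 1 ≤ q.natDegree) (α : ℝ) (x : ℂ) :
    x ∈ (G q α).roots ↔ Q1 q x ^ 2 = (α : ℂ) ^ 2 * PP q x ^ 3 := by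
  rw [mem_roots (G_ne_zero q hq α), IsRoot.def, G_eval, sub_eq_zero]

theorem simple_root (q : ℝ[X]) (hq : 1 ≤ q.natDegree) {α : ℝ} {x : ℂ}
    (hQ1 : Q1 q x ≠ 0) (hN : ((NN q).map (algebraMap ℝ ℂ)).eval x ≠ 0) :
    (G q α).roots.count x ≤ 1 := by
  by_contra h
  rw [not_le, count_roots, one_lt_rootMultiplicity_iff_isRoot (G_ne_zero q hq α)] at h
  obtain ⟨h1, h2⟩ := h
  have h3 := congrArg (Polynomial.eval x) (G_identity q α)
  have h4 : (1 + qc q ^ 2).eval x * (derivative (G q α)).eval x =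
      (2 : ℂ[X]).eval x * (derivative (qc q)).eval x * ((NN q).map (algebraMap ℝ ℂ)).eval x +
        (6 * qc q * derivative (qc q)).eval x * (G q α).eval x := by
    rw [← eval_mul, h3, eval_add, eval_mul, eval_mul, eval_mul]
  rw [h1.eq_zero, h2.eq_zero] at h4
  have h5 : (2 : ℂ[X]).eval x = 2 := by simp
  rw [h5, mul_zero, mul_zero, add_zero] at h4
  exact (mul_ne_zero (mul_ne_zero two_ne_zero hQ1) hN) h4.symm

/-- Number of elements of a multiset with a property. -/
def cnt (p : ℂ → Prop) (s : Multiset ℂ) : ℕ := @Multiset.countP ℂ p (Classical.decPred p) s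

theorem cnt_eq_zero_of {s : Multiset ℂ} {p : ℂ → Prop} (h : ∀ x ∈ s, ¬ p x) : cnt p s = 0 := by
  unfold cnt
  let _ := Classical.decPred p
  rw [Multiset.countP_eq_zero]; exact h

theorem cnt_le_of {s : Multiset ℂ} {p : ℂ → Prop} {m : ℕ} (h1 : ∀ x ∈ s, p x → s.count x ≤ 1)
    (h2 : ∀ t : Finset ℂ, (∀ x ∈ t, x ∈ s ∧ p x) → t.card ≤ m) : cnt p s ≤ m := by
  unfold cnt
  let _ := Classical.decPred p
  rw [Multiset.countP_eq_card_filter]
  have hnd : (s.filter p).Nodup := by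
    rw [Multiset.nodup_iff_count_le_one]
    intro x
    rw [Multiset.count_filter]
    split_ifs with h
    · by_cases hx : x ∈ s
      · exact h1 x hx h
      · rw [Multiset.count_eq_zero_of_notMem hx]; exact Nat.zero_le _
    · exact Nat.zero_le _
  rw [← Multiset.toFinset_card_of_nodup hnd]
  apply h2
  intro x hx
  rw [Multiset.mem_toFinset, Multiset.mem_filter] at hx
  exact hx

theorem cnt_le_sum {ι : Type*} {s : Multiset ℂ} {p : ℂ → Prop} {T : Finset ι} {r : ι → ℂ → Prop}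
    (h : ∀ x ∈ s, p x → ∃ c ∈ T, r c x) : cnt p s ≤ ∑ c ∈ T, cnt (r c) s := by
  classical
  induction s using Multiset.induction_on with
  | empty => simp [cnt]
  | cons a s ih =>
    have h1 := ih (fun x hx => h x (Multiset.mem_cons_of_mem hx))
    have e1 : ∀ p' : ℂ → Prop, cnt p' (a ::ₘ s) = cnt p' s + if p' a then 1 else 0 := by
      intro p'
      unfold cnt
      let _ := Classical.decPred p'
      rw [Multiset.countP_cons]
    rw [e1, Finset.sum_congr rfl (fun c _ => e1 (r c)), Finset.sum_add_distrib]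
    have h2 : (if p a then 1 else 0) ≤ ∑ c ∈ T, if r c a then 1 else 0 := by
      split_ifs with hp
      · obtain ⟨c, hc, hr⟩ := h a (Multiset.mem_cons_self a s) hp
        have h3 : (if r c a then 1 else 0) ≤ ∑ c ∈ T, if r c a then 1 else 0 :=
          Finset.single_le_sum (f := fun c => if r c a then 1 else 0)
            (fun i _ => Nat.zero_le _) hc
        rw [if_pos hr] at h3
        exact h3
      · exact Nat.zero_le _
    omega

/-- local bound at a zero of `q'`. -/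
theorem local_zero (q : ℝ[X]) (hq : 1 ≤ q.natDegree) {c : ℂ} (hc : Q1 q c = 0) :
    ∃ U ∈ 𝓝 c, ∀ α : ℝ, 0 < α → cnt (fun x => x ∈ U ∧ x ∈ Om q) (G q α).roots ≤
      if c.im = 0 then 0 else (derivative (qc q)).roots.count c := by
  by_cases hP : PP q c = 0
  · refine ⟨{x | x ∉ Om q}, common_zero q hq hP hc, fun α hα => ?_⟩
    rw [cnt_eq_zero_of]
    · exact Nat.zero_le _
    · rintro x - ⟨h1, h2⟩
      exact h1 h2
  by_cases hr : ∃ r : ℝ, 0 ≤ r ∧ Q q c ^ 2 = r * PP q c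
  · have h1 := lemU q hq c hP 0 le_rfl (by rw [hc]; simp) (Or.inr ⟨rfl, hr⟩)
    refine ⟨_, h1, fun α hα => ?_⟩
    rw [cnt_eq_zero_of]
    · exact Nat.zero_le _
    · rintro x hx ⟨h2, h3⟩
      rw [mem_roots_G q hq] at hx
      have hxi : x.im ≠ 0 := fun h => not_mem_Om_of_im q h h3
      obtain ⟨b, hb, h4⟩ := h2 α hα hx hxi
      have h5 : x.im * (FF q x).im < 0 := h3
      rw [h4] at h5
      simp at h5
      linarith
  -- the main case
  have hci : c.im ≠ 0 := by
    intro h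
    apply hr
    have hyr : ((c.re : ℝ) : ℂ) = c := by apply Complex.ext <;> simp [h]
    refine ⟨q.eval c.re ^ 2 / (1 + q.eval c.re ^ 2), by positivity, ?_⟩
    rw [← hyr, Q_ofReal, PP_ofReal]
    have : (1 + q.eval c.re ^ 2 : ℝ) ≠ 0 := by positivity
    rw [← Complex.ofReal_mul, ← Complex.ofReal_pow]
    congr 1
    simp only [Complex.ofReal_re]
    field_simp
  rw [if_neg hci]
  obtain ⟨w, hwa, hw2, hw0, -⟩ := branch q c hP
  have hw0' : ∀ᶠ x in 𝓝 c, w x ≠ 0 := hwa.continuousAt.eventually_ne hw0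
  have hwc : w c ^ 2 = PP q c := hw2.self_of_nhds
  set S : ℂ → ℂ := fun x => Q q x / w x with hS
  have hSa : AnalyticAt ℂ S c := (Q_analyticAt q c).div hwa hw0
  have hSi : (S c).im ≠ 0 := by
    intro h
    apply hr
    refine ⟨(S c).re ^ 2, by positivity, ?_⟩
    have h1 : (((S c).re : ℝ) : ℂ) = S c := by apply Complex.ext <;> simp [h]
    rw [Complex.ofReal_pow, h1]
    simp only [hS]
    rw [← hwc]; field_simp
  -- factorisation
  obtain ⟨r, hr1, hr2⟩ := exists_eq_pow_rootMultiplicity_mul_and_not_dvd (derivative (qc q))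
    (derivative_qc_ne_zero q hq) c
  set m := rootMultiplicity c (derivative (qc q)) with hm
  have hm1 : 1 ≤ m := by
    rw [hm, Nat.one_le_iff_ne_zero, ← Nat.pos_iff_ne_zero,
      rootMultiplicity_pos (derivative_qc_ne_zero q hq)]
    exact hc
  have hrc : r.eval c ≠ 0 := by
    intro h
    exact hr2 (dvd_iff_isRoot.2 h)
  have hua : AnalyticAt ℂ (fun x => r.eval x / w x ^ 3) c :=
    (r.differentiable.analyticAt c).div (hwa.pow 3) (pow_ne_zero 3 hw0)
  obtain ⟨U, hU, hUc⟩ := local_card_le (f := fun x => Q1 q x / w x ^ 3) hm1 hua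
    (div_ne_zero hrc (pow_ne_zero 3 hw0)) (by
      filter_upwards with x
      have : Q1 q x = (x - c) ^ m * r.eval x := by
        show (derivative (qc q)).eval x = _
        rw [hr1]
        simp
      rw [this]; ring)
  have hPP : ∀ᶠ x in 𝓝 c, PP q x ≠ 0 := (PP_analyticAt q c).continuousAt.eventually_ne hP
  -- `N` has isolated zeros
  have hNc : ∀ᶠ x in 𝓝 c, x ≠ c → ((NN q).map (algebraMap ℝ ℂ)).eval x ≠ 0 := by
    have h0 : (NN q).map (algebraMap ℝ ℂ) ≠ 0 := by
      rw [Polynomial.map_ne_zero_iff (algebraMap ℝ ℂ).injective]; exact NN_ne_zero q hq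
    have h1 : (((NN q).map (algebraMap ℝ ℂ)).roots.toFinset.erase c : Set ℂ)ᶜ ∈ 𝓝 c := by
      apply IsOpen.mem_nhds
      · exact (Finset.finite_toSet _).isClosed.isOpen_compl
      · simp
    filter_upwards [h1] with x hx hxc h2
    apply hx
    simp only [Finset.coe_erase, Set.mem_sdiff, Finset.mem_coe, Multiset.mem_toFinset,
      Set.mem_singleton_iff]
    exact ⟨(mem_roots h0).2 h2, hxc⟩
  have hsg : ∀ᶠ x in 𝓝 c, 0 < (x.im * (S x).im) * (c.im * (S c).im) := by
    have h1 : ContinuousAt (fun x => (x.im * (S x).im) * (c.im * (S c).im)) c :=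
      (Complex.continuous_im.continuousAt.mul
        (Complex.continuous_im.continuousAt.comp hSa.continuousAt)).mul continuousAt_const
    exact h1.eventually (lt_mem_nhds (mul_self_pos.2 (mul_ne_zero hci hSi)))
  set V : Set ℂ := {x | x ∈ U ∧ w x ^ 2 = PP q x ∧ w x ≠ 0 ∧ PP q x ≠ 0 ∧
    (x ≠ c → ((NN q).map (algebraMap ℝ ℂ)).eval x ≠ 0) ∧
    0 < (x.im * (S x).im) * (c.im * (S c).im)} with hV
  have hVn : V ∈ 𝓝 c := by
    filter_upwards [hU, hw2, hw0', hPP, hNc, hsg] with x h1 h2 h3 h4 h5 h6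
    exact ⟨h1, h2, h3, h4, h5, h6⟩
  refine ⟨V, hVn, fun α hα => ?_⟩
  have hQ1ne : ∀ x ∈ (G q α).roots, x ∈ V → Q1 q x ≠ 0 := by
    intro x hx hxV h
    rw [mem_roots_G q hq, h] at hx
    have h1 : (α : ℂ) ^ 2 * PP q x ^ 3 ≠ 0 :=
      mul_ne_zero (alpha_sq_ne hα) (pow_ne_zero 3 hxV.2.2.2.1)
    exact h1 (by rw [← hx]; simp)
  rw [count_roots, ← hm]
  apply cnt_le_of
  · intro x hx h
    have h1 := hQ1ne x hx h.1
    exact simple_root q hq h1 (h.1.2.2.2.2.1 (fun h2 => h1 (by rw [h2]; exact hc)))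
  intro t ht
  -- the common value
  apply hUc (if 0 < c.im * (S c).im then (α : ℂ) else -α)
  intro x hx
  obtain ⟨hx1, hxV, hxO⟩ := ht x hx
  obtain ⟨hxU, hxw2, hxw0, hxP, -, hxs⟩ := hxV
  refine ⟨hxU, ?_⟩
  rw [mem_roots_G q hq] at hx1
  have hκ : (Q1 q x / w x ^ 3) ^ 2 = (α : ℂ) ^ 2 := by
    rw [div_pow, hx1, ← hxw2]; field_simp
  obtain ⟨k, hk, hka⟩ : ∃ k : ℝ, Q1 q x / w x ^ 3 = k ∧ |k| = α := by
    rcases sq_eq_sq_iff_eq_or_eq_neg.1 hκ with h | h
    · exact ⟨α, h, abs_of_pos hα⟩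
    · exact ⟨-α, by rw [h]; push_cast; rfl, by rw [abs_neg, abs_of_pos hα]⟩
  have hk0 : k ≠ 0 := by intro h; rw [h] at hka; simp at hka; linarith
  have hkC : (k : ℂ) ≠ 0 := by exact_mod_cast hk0
  have hQ1x : Q1 q x ≠ 0 := by
    intro h
    rw [h] at hk
    exact hkC (by rw [← hk]; simp)
  have h3 : FF q x = x - S x / k := by
    rw [← hk]
    simp only [FF, hS]
    rw [← hxw2]
    field_simp
  have h4 : (FF q x).im = x.im - (S x).im / k := by
    rw [h3, Complex.sub_im, Complex.div_ofReal_im]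
  have h5 : x.im * (FF q x).im < 0 := hxO
  rw [h4] at h5
  have h6 : 0 < k * (x.im * (S x).im) := by
    have h7 : 0 < x.im * ((S x).im / k) := by nlinarith [mul_self_nonneg x.im]
    have h8 : x.im * ((S x).im / k) = (k * (x.im * (S x).im)) / k ^ 2 := by field_simp
    rw [h8] at h7
    have h9 : 0 < k ^ 2 := by positivity
    exact (div_pos_iff_of_pos_right h9).1 h7
  show Q1 q x / w x ^ 3 = _
  rw [hk]
  split_ifs with h7
  · have h8 : 0 < x.im * (S x).im := (pos_iff_pos_of_mul_pos hxs).2 h7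
    have h9 : 0 < k := (pos_iff_pos_of_mul_pos h6).2 h8
    rw [← hka, abs_of_pos h9]
  · have h8 : x.im * (S x).im < 0 := by
      have h10 : c.im * (S c).im < 0 :=
        lt_of_le_of_ne (not_lt.1 h7) (mul_ne_zero hci hSi)
      exact neg_of_mul_pos_left hxs h10.le
    have h9 : k < 0 := neg_of_mul_pos_left h6 h8.le
    rw [← hka, abs_of_neg h9]; push_cast; ring

/-- The bound for small `α`. -/
theorem small_alpha (q : ℝ[X]) (hq : 1 ≤ q.natDegree)
    (hinf : ∃ B : ℝ, ∀ x : ℂ, B ≤ ‖x‖ → ∀ α : ℝ, 0 < α →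
      Q1 q x ^ 2 = (α : ℂ) ^ 2 * PP q x ^ 3 → x ∉ Om q) :
    ∀ᶠ α : ℝ in 𝓝[>] 0, cnt (· ∈ Om q) (G q α).roots ≤
      ∑ c ∈ (derivative (qc q)).roots.toFinset,
        if c.im = 0 then 0 else (derivative (qc q)).roots.count c := by
  obtain ⟨B, hB⟩ := hinf
  have h1 : ∀ c : ℂ, ∃ U ∈ 𝓝 c, Q1 q c = 0 → ∀ α : ℝ, 0 < α →
      cnt (fun x => x ∈ U ∧ x ∈ Om q) (G q α).roots ≤
      if c.im = 0 then 0 else (derivative (qc q)).roots.count c := by
    intro c
    by_cases hc : Q1 q c = 0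
    · obtain ⟨U, hU, h⟩ := local_zero q hq hc
      exact ⟨U, hU, fun _ => h⟩
    · exact ⟨Set.univ, Filter.univ_mem, fun h => absurd h hc⟩
  choose U hU hUc using h1
  set K : Set ℂ := Metric.closedBall 0 B \ ⋃ c : ℂ, interior (if Q1 q c = 0 then U c else ∅) with hK
  have hKc : IsCompact K := by
    apply (isCompact_closedBall (0 : ℂ) B).diff
    exact isOpen_iUnion fun c => isOpen_interior
  have hKne : ∀ x ∈ K, (0 : ℝ) < ‖Q1 q x‖ := by
    intro x hx
    rw [norm_pos_iff]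
    intro h
    apply hx.2
    rw [Set.mem_iUnion]
    refine ⟨x, ?_⟩
    rw [if_pos h]
    exact mem_interior_iff_mem_nhds.2 (hU x)
  obtain ⟨η, hη, hη2⟩ := hKc.exists_forall_le' (Q1_differentiable q).continuous.norm.continuousOn
    hKne
  have hPPc : Continuous (PP q) := by
    have := (Q_differentiable q).continuous
    unfold PP; fun_prop
  obtain ⟨M, hM⟩ := hKc.exists_bound_of_continuousOn hPPc.continuousOn
  have hsmall : ∀ᶠ α : ℝ in 𝓝[>] 0, α ^ 2 * |M| ^ 3 < η ^ 2 := by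
    have h2 : ContinuousAt (fun α : ℝ => α ^ 2 * |M| ^ 3) 0 := by fun_prop
    have h3 : (fun α : ℝ => α ^ 2 * |M| ^ 3) 0 < η ^ 2 := by
      simp only [ne_eq, OfNat.ofNat_ne_zero, not_false_eq_true, zero_pow, zero_mul]; positivity
    exact (h2.eventually (gt_mem_nhds h3)).filter_mono nhdsWithin_le_nhds
  filter_upwards [hsmall, self_mem_nhdsWithin] with α hα1 hα2
  have hα : 0 < α := hα2
  have hcov : ∀ x ∈ (G q α).roots, x ∈ Om q → ∃ c ∈ (derivative (qc q)).roots.toFinset,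
      (x ∈ U c ∧ x ∈ Om q) := by
    intro x hx hxO
    rw [mem_roots_G q hq] at hx
    have h2 : x ∉ K := by
      intro hxK
      have h3 := hη2 x hxK
      have h4 := hM x hxK
      have h5 : ‖Q1 q x‖ ^ 2 = α ^ 2 * ‖PP q x‖ ^ 3 := by
        have := congrArg norm hx
        rw [norm_pow, norm_mul, norm_pow, norm_pow, Complex.norm_real, Real.norm_eq_abs, sq_abs]
          at this
        exact this
      have h6 : ‖PP q x‖ ^ 3 ≤ |M| ^ 3 :=
        pow_le_pow_left₀ (norm_nonneg _) (h4.trans (le_abs_self M)) 3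
      have h7 : η ^ 2 ≤ ‖Q1 q x‖ ^ 2 := pow_le_pow_left₀ hη.le h3 2
      nlinarith [mul_le_mul_of_nonneg_left h6 (sq_nonneg α)]
    have h3 : x ∈ Metric.closedBall (0 : ℂ) B := by
      by_contra h4
      rw [mem_closedBall_zero_iff, not_le] at h4
      exact hB x h4.le α hα hx hxO
    have h4 : x ∈ ⋃ c : ℂ, interior (if Q1 q c = 0 then U c else ∅) := by
      by_contra h5
      exact h2 ⟨h3, h5⟩
    rw [Set.mem_iUnion] at h4
    obtain ⟨c, hc⟩ := h4
    have h5 := interior_subset hc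
    by_cases h6 : Q1 q c = 0
    · rw [if_pos h6] at h5
      refine ⟨c, ?_, h5, hxO⟩
      rw [Multiset.mem_toFinset, mem_roots (derivative_qc_ne_zero q hq)]
      exact h6
    · rw [if_neg h6] at h5
      exact absurd h5 (Set.notMem_empty x)
  refine (cnt_le_sum hcov).trans (Finset.sum_le_sum fun c hc => ?_)
  rw [Multiset.mem_toFinset, mem_roots (derivative_qc_ne_zero q hq)] at hc
  exact hUc c hc α hα

end

end MP_4bcb19_an
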